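import Pool.Agent.MP_48470b_gt.Pj.D
import Pool.Agent.MP_48470b_gt.Bl.Fin

/-! The mismatch on the boundary of the chart. -/

namespace Pool.Agent.MP_48470b_gt.Pj

open TT Dic Bl Pool.Agent.MP_48470b_gt.Top

theorem grid : ∀ i < 23, Ck.ce i * hh / Ck.HH i * Ck.HH i = Ck.ce i * hh ∧ 0 < Ck.HH i ∧
    Ck.br (i + 1) + 1 ≤ Ck.ce i + Ck.HH i ∧ Ck.ce i + 1 ≤ Ck.br i + Ck.HH i := by decide

variable {z : P3}

theorem tn_var {s : C3} {a : Fin 3} {H c : ℝ} (hH : 0 < H)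
    (h : xi a = (H / 512) • s + algebraMap ℝ C3 (c / 512)) (h1 : 512 * z a + 1 ≤ c + H)
    (h2 : c + 1 ≤ 512 * z a + H) : tn (1 / 1024) z s ≤ 1 := by
  have e : s = (512 / H) • xi a - algebraMap ℝ C3 (c / H) := by
    ext y
    simp only [h, C3.sub_apply, C3.smul_apply, C3.add_apply, C3.algebraMap_apply]
    field_simp
    ring
  rw [e, tn_xi, abs_of_pos (show 0 < 512 / H by positivity),
    show 512 / H * z a - c / H = (512 * z a - c) / H by ring, abs_div, abs_of_pos hH,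
    show 1 / 1024 * (512 / H) = 1 / 2 / H by ring, ← add_div, div_le_one hH]
  have : |512 * z a - c| ≤ H - 1 := abs_le.2 ⟨by linarith, by linarith⟩
  linarith

/-- the small variable -/
noncomputable def UU : C3 := (2 ^ 27 / hh : ℝ) • (rc 2 - 1)

theorem tn_UU (h1 : 1024 ≤ 1025 * z 2) (h2 : z 2 ≤ 1) : tn (1 / 1024) z UU ≤ 1 := by
  have r : (0 : ℝ) ≤ 1 / 1024 := by norm_num
  have a : tn (1 / 1024) z ((1 : ℝ) • xi 2 - algebraMap ℝ C3 1) ≤ 1 / 1025 + 1 / 1024 := by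
    rw [tn_xi, abs_one, mul_one, one_mul, abs_of_nonpos (by linarith)]
    linarith
  have e : rc 2 - 1 = -((1 : ℝ) • xi 2 - algebraMap ℝ C3 1) +
      (-(rc 2 - 1) * ((1 : ℝ) • xi 2 - algebraMap ℝ C3 1) + 1 * (xi 2 * rc 2 - 1)) := by
    rw [one_smul, map_one]; ring
  have b := tn_add (y := z) r (-((1 : ℝ) • xi 2 - algebraMap ℝ C3 1))
    (-(rc 2 - 1) * ((1 : ℝ) • xi 2 - algebraMap ℝ C3 1) + 1 * (xi 2 * rc 2 - 1))
  have c := tn_add (y := z) r (-(rc 2 - 1) * ((1 : ℝ) • xi 2 - algebraMap ℝ C3 1))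
    (1 * (xi 2 * rc 2 - 1))
  have d := tn_mul (y := z) r (-(rc 2 - 1)) ((1 : ℝ) • xi 2 - algebraMap ℝ C3 1)
  rw [tn_rc (by linarith)] at c
  rw [← e, tn_neg] at b
  rw [tn_neg] at d
  have f := mul_le_mul_of_nonneg_left a (tn_nonneg (y := z) r (rc 2 - 1))
  rw [UU, tn_smul, abs_of_pos (by norm_num [hh])]
  norm_num [hh] at *
  linarith

theorem sub_var {s : C3} {a : Fin 3} (ha : a ≠ 2) {H c κ : ℕ} (hH : 0 < H) (hκ : κ * H = c * hh)
    (h : xi a = ((H : ℝ) / 512) • s + algebraMap ℝ C3 (c / 512)) :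
    sub (sw 2) s = s + UU * ((hh / 2 ^ 27 : ℝ) • s + (κ / 2 ^ 27 : ℝ) • 1) := by
  have h1 := congrArg (sub (sw 2)) h
  rw [sub_xi, sw, if_neg ha, h, map_add, map_smul, AlgHom.commutes] at h1
  ext y
  have h2 := congrArg (fun u : C3 => u y) h1
  have h3 : (κ : ℝ) * H = c * hh := by exact_mod_cast hκ
  have h4 : (H : ℝ) ≠ 0 := by positivity
  simp only [UU, C3.sub_apply, C3.smul_apply, C3.add_apply, C3.algebraMap_apply, C3.mul_apply,
    C3.one_apply, hh] at h2 h3 ⊢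
  refine mul_left_cancel₀ h4 ?_
  push_cast at h3 ⊢
  linear_combination -512 * h2 - (rc 2 y - 1) / 262548 * h3

/-- **The mismatch on the boundary of the chart.** -/
theorem projB {c : Cfg} {M D D' P E : ℕ} {K : Bx} (h : chkK c M (K 0) (K 1) D D' P E = true)
    (k0 : K 0 < 23) (k1 : K 1 < 23) (k2 : K 2 = 22) {X : Fin 3 → C3}
    (x0 : xi 0 = ((Ck.HH (K 0) : ℝ) / 512) • X 0 + algebraMap ℝ C3 (Ck.ce (K 0) / 512))
    (x1 : xi 2 = ((Ck.HH (K 2) : ℝ) / 512) • X 1 + algebraMap ℝ C3 (Ck.ce (K 2) / 512))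
    (x2 : xi 1 = ((Ck.HH (K 1) : ℝ) / 512) • X 2 + algebraMap ℝ C3 (Ck.ce (K 1) / 512)) :
    ProjB Ck.br K (((2 : ℝ) ^ P)⁻¹ • c.ev X (c.ldc D)) (((2 : ℝ) ^ P)⁻¹ • c.ev X (c.ldc D'))
      (E / 2 ^ 100) := fun z hz h1 => by
  simp only [chkK, chk, Bool.and_eq_true, Nat.ble_eq, Nat.shiftLeft_eq', Nat.shiftLeft_eq,
    Nat.add_eq] at h
  obtain ⟨⟨⟨ok, hD⟩, hD'⟩, hE⟩ := h
  obtain ⟨a1, a2, a3, a4⟩ := grid _ k0
  obtain ⟨b1, b2, b3, b4⟩ := grid _ k1
  have r : (0 : ℝ) ≤ 1 / 1024 := by norm_num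
  have v : ∀ {a : Fin 3} {s : C3}, 0 < Ck.HH (K a) → Ck.br (K a + 1) + 1 ≤ Ck.ce (K a) + Ck.HH (K a) →
      Ck.ce (K a) + 1 ≤ Ck.br (K a) + Ck.HH (K a) →
      xi a = ((Ck.HH (K a) : ℝ) / 512) • s + algebraMap ℝ C3 (Ck.ce (K a) / 512) →
      tn (1 / 1024) z s ≤ 1 := fun {a s} p q q' e => by
    have q1 : (Ck.br (K a + 1) + 1 : ℝ) ≤ Ck.ce (K a) + Ck.HH (K a) := by exact_mod_cast q
    have q2 : (Ck.ce (K a) + 1 : ℝ) ≤ Ck.br (K a) + Ck.HH (K a) := by exact_mod_cast q'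
    have := hz a
    push_cast at this
    exact tn_var (by exact_mod_cast p) e (by linarith) (by linarith)
  have z2 : z 2 ≤ 1 := by
    have := (hz 2).2
    rw [k2, show Ck.br (22 + 1) = 512 from rfl] at this
    push_cast at this
    linarith
  rw [k2, show Ck.HH 22 = 11 from rfl, show Ck.ce 22 = 502 from rfl] at x1
  have b := (Par.ok_of ok).bd (ν := tnS _ r z) (tn_mul r) tn_one.le hD hD' (U := UU) (X := X)
    (Y := fun a => sub (sw 2) (X a)) (tn_UU h1 z2) (v a2 a3 a4 x0) (v b2 b3 b4 x2)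
    (sub_var (by decide) a2 a1 x0) (sub_var (by decide) b2 b1 x2)
    (by
      have h1 := congrArg (sub (sw 2)) x1
      rw [sub_xi, sw, if_pos rfl, map_add, map_smul, AlgHom.commutes] at h1
      ext y
      have h2 := congrArg (fun u : C3 => u y) h1
      simp only [UU, C3.sub_apply, C3.smul_apply, C3.add_apply, C3.algebraMap_apply,
        C3.one_apply, hh] at h2 ⊢
      push_cast at h2 ⊢
      linear_combination -68719476736 * h2)
    (by
      refine le_of_eq (Eq.trans (congrArg _ ?_)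
        (tn_rc (j := 2) (by linarith) ((68719476736 : ℝ) • 1)))
      ext y
      have h2 := congrArg (fun u : C3 => u y) x1
      simp only [UU, C3.sub_apply, C3.smul_apply, C3.add_apply, C3.algebraMap_apply, C3.mul_apply,
        C3.one_apply, hh] at h2 ⊢
      push_cast at h2 ⊢
      linear_combination -68719476736 * rc 2 y * h2)
  rw [map_smul, Cfg.map_ev, ← smul_sub, tn_smul, abs_of_pos (by positivity),
    inv_mul_le_iff₀ (by positivity), mul_div_assoc', le_div_iff₀ (by positivity)]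
  have hE' := (Nat.cast_le (α := ℝ)).2 hE
  rw [Nat.cast_mul, Nat.cast_mul, Nat.cast_pow, Nat.cast_pow, Nat.cast_ofNat, pow_add] at hE'
  refine le_of_mul_le_mul_left ?_ (show (0 : ℝ) < 2 ^ 18 by positivity)
  have := mul_le_mul_of_nonneg_right b (show (0 : ℝ) ≤ 2 ^ 100 by positivity)
  exact le_of_eq_of_le (mul_assoc _ _ _).symm ((this.trans hE').trans_eq (by
    change (E : ℝ) * (2 ^ P * 2 ^ 18) = _; ring))

end Pool.Agent.MP_48470b_gt.Pj
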