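import Pool.Agent.MP_48470b_gt.TT.Mk
import Pool.Agent.MP_48470b_gt.Pj.X

open Finset

namespace Pool.Agent.MP_48470b_gt.Pj

open TT
open TM (pk dig)

theorem cc1_eq {w : ℕ} (hw : 0 < w) (v n : ℕ) : cc1 w v n = pk w n fun _ => 2 ^ v - 1 := by
  rw [show cc1 w v n = ones w n <<< v - ones w n from rfl, Nat.shiftLeft_eq, ← Nat.mul_sub_one,
    ones_eq hw, TM.pk_mul]
  simp only [one_mul]

theorem nrm_ge {w v n : ℕ} {e : ℕ → ℕ} (hv : v < w) (hn : n * 2 ^ v < 2 ^ w - 1)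
    (he : ∀ t < n, e t < 2 ^ (v + 1)) :
    ∑ t ∈ range n, |(e t : ℤ) - 2 ^ v| ≤ nrm w v n (pk w n e) := by
  have hw : 0 < w := by omega
  have h0 : 0 < 2 ^ v := by positivity
  have h1 : 2 ^ (v + 1) ≤ 2 ^ w := Nat.pow_le_pow_right two_pos hv
  have h2 : 2 ^ (v + 1) = 2 ^ v * 2 := pow_succ _ _
  have he' : ∀ t < n, e t < 2 ^ w := fun t ht => (he t ht).trans_le h1
  have e1 : pk w n e >>> v &&& ones w n = pk w n fun t => e t / 2 ^ v % 2 := by
    rw [ones_eq hw, TM.land_pk fun t _ => by omega, Nat.shiftRight_eq_div_pow]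
    refine TM.pk_congr fun t ht => ?_
    have h3 := TM.dig_shr (k := v) (u := 1) (w := w) hv (pk w n e) t
    rw [pow_one, TM.dig_pk he' ht] at h3
    rw [Nat.and_one_is_mod, h3]
  have hs : ∑ t ∈ range n, ((e t ^^^ (2 ^ v - 1 + e t / 2 ^ v % 2)) + 1) < 2 ^ w - 1 := by
    refine lt_of_le_of_lt ?_ hn
    calc _ ≤ ∑ _t ∈ range n, 2 ^ v :=
          sum_le_sum fun t ht => (TM.abs_digit (he t (mem_range.1 ht))).2
      _ = _ := by simp
  rw [show nrm w v n (pk w n e) = ((pk w n e ^^^ (cc1 w v n + (pk w n e >>> v &&& ones w n))) +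
      ones w n) % (2 ^ w - 1) from rfl, e1, cc1_eq hw, TM.pk_add,
    TM.xor_pk he' fun t _ => by omega, ones_eq hw, TM.pk_add, TM.pk_sum hs, Nat.cast_sum]
  exact sum_le_sum fun t ht => (TM.abs_digit (he t (mem_range.1 ht))).1

theorem Par.pln_eq (x : Par) (hu : x.c.u < x.c.w) (D : ℕ) {j : ℕ} (hj : j < x.c.B1) :
    x.pln D j = pk x.c.w x.S fun s =>
      x.c.de D (s / x.c.B2 * x.c.S + j * x.c.B2 + s % x.c.B2) := by
  have hw : 0 < x.c.w := by omega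
  have h1 : 2 ^ x.c.u < 2 ^ x.c.w := Nat.pow_lt_pow_right one_lt_two hu
  rw [Par.pln, hor_eq, show x.S = x.c.B0 * x.c.B2 from rfl, TM.pk_pk]
  refine TM.pk_congr fun i _ => ?_
  rw [show Nat.land (Nat.shiftRight (x.blk D i) (Nat.mul x.c.wB j)) x.rm =
      x.blk D i >>> (x.c.w * x.c.B2 * j) &&& cc1 x.c.w x.c.u x.c.B2 from rfl, cc1_eq hw,
    TM.land_pk fun t _ => (Nat.sub_le _ _).trans_lt h1, Nat.shiftRight_eq_div_pow, mul_assoc,
    Par.blk, land_m2,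
    show Nat.shiftRight D (Nat.mul x.c.wS i) = D >>> (x.c.w * x.c.S * i) from rfl,
    Nat.shiftRight_eq_div_pow, mul_assoc, show x.c.wS = x.c.w * x.c.S from rfl]
  refine TM.pk_congr fun k hk => ?_
  have h2 : x.c.B2 * j + k < x.c.S := by
    have : x.c.B2 * (j + 1) ≤ x.c.B2 * x.c.B1 := Nat.mul_le_mul_left _ hj
    rw [show x.c.S = x.c.B1 * x.c.B2 from rfl, mul_comm x.c.B1]
    rw [mul_add_one] at this
    omega
  have h3 : (i * x.c.B2 + k) / x.c.B2 = i := by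
    rw [add_comm, Nat.add_mul_div_right _ _ (by omega), Nat.div_eq_of_lt hk, zero_add]
  have h4 : (i * x.c.B2 + k) % x.c.B2 = k := by
    rw [add_comm, Nat.add_mul_mod_self_right, Nat.mod_eq_of_lt hk]
  rw [Nat.and_two_pow_sub_one_eq_mod, TM.dig_div, TM.dig_mod h2, TM.dig_div, h3, h4, Cfg.de,
    mul_comm x.c.S, mul_comm x.c.B2, add_assoc]

theorem Par.top_eq (x : Par) (hM : 1 ≤ x.M) {d : ℕ → ℕ} (hd : ∀ t < x.N, d t < 2 ^ x.c.w) :
    x.top (pk x.c.w x.N d) = pk x.c.w x.S fun t => d (x.N - x.S + t) := by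
  have h1 : x.N = x.S * (x.M - 1) + x.S := by
    rw [show x.N = x.M * x.S from rfl, ← mul_add_one, Nat.sub_add_cancel hM, mul_comm]
  rw [show x.top (pk x.c.w x.N d) = pk x.c.w x.N d >>> (x.c.w * x.S * (x.M - 1)) from rfl,
    Nat.shiftRight_eq_div_pow, mul_assoc]
  rw [h1] at hd ⊢
  rw [TM.pk_div fun t ht => hd t (by omega), Nat.add_sub_cancel]

theorem pk_full_A1 (w n : ℕ) : (pk w n fun _ => 2 ^ w - 1) + 1 = 2 ^ (w * n) := by
  induction n with
  | zero => simp [pk]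
  | succ n ih =>
    have h0 : 1 ≤ 2 ^ w := Nat.one_le_two_pow
    obtain ⟨c, hc⟩ := Nat.exists_eq_add_of_le h0
    rw [pk, sum_range_succ, ← pk, add_right_comm, ih, mul_add_one, pow_add]
    generalize 2 ^ (w * n) = a
    rw [hc, Nat.add_sub_cancel_left]
    ring

theorem Par.gm_eq (x : Par) (hw : 0 < x.c.w) {L K : ℕ} (hL : L ∣ x.N) (h0 : 0 < L) (hK : K ≤ L) :
    x.gm L K = pk x.c.w x.N fun t => if K ≤ t % L then 2 ^ x.c.w - 1 else 0 := by
  obtain ⟨c, rfl⟩ := Nat.exists_eq_add_of_le hK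
  have h1 : (pk x.c.w (K + c) fun j => if K ≤ j then 2 ^ x.c.w - 1 else 0) =
      2 ^ (x.c.w * (K + c)) - 2 ^ (x.c.w * K) := by
    rw [TM.pk_split, TM.pk_congr (g := fun _ => 0) fun t ht => if_neg (by omega),
      TM.pk_congr (n := c) (g := fun _ => 2 ^ x.c.w - 1) fun t _ => if_pos (by omega),
      mul_add, pow_add, ← pk_full_A1 x.c.w c, mul_add_one, Nat.add_sub_cancel]
    simp [pk]
  rw [show x.gm (K + c) K = ones (x.c.w * (K + c)) (x.N / (K + c)) <<< (x.c.w * (K + c)) -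
      ones (x.c.w * (K + c)) (x.N / (K + c)) <<< (x.c.w * K) from rfl, Nat.shiftLeft_eq,
    Nat.shiftLeft_eq, ← Nat.mul_sub, ones_eq (Nat.mul_pos hw h0), TM.pk_mul]
  conv_rhs => rw [← Nat.div_mul_cancel hL, TM.pk_pk]
  refine TM.pk_congr fun i _ => ?_
  rw [one_mul, ← h1]
  refine TM.pk_congr fun j hj => ?_
  rw [add_comm (i * (K + c)), Nat.add_mul_mod_self_right, Nat.mod_eq_of_lt hj]

end Pool.Agent.MP_48470b_gt.Pj
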