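import Pool.Agent.MP_48470b_gt.Pj.A1

/-! The substitution in the second variable on packed digits. -/

open Finset

namespace Pool.Agent.MP_48470b_gt.Pj

open TT
open TM (pk dig)

theorem dig2_A2 (w y b t : ℕ) : dig (2 * w) (y / 2 ^ (w * b)) t % 2 ^ w = dig w y (2 * t + b) := by
  rw [dig, dig, Nat.div_div_eq_div_mul, ← pow_add, Nat.mod_mod_of_dvd _ (pow_dvd_pow 2 (by omega))]
  congr 3
  ring

theorem mE_A2 (x : Par) (hw : 0 < x.c.w) (y n : ℕ) :
    Nat.land y (x.mE n) = pk (2 * x.c.w) n fun t => dig (2 * x.c.w) y t % 2 ^ x.c.w := by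
  change y &&& cc1 (2 * x.c.w) x.c.w n = _
  rw [cc1_eq (by omega), TM.land_pk fun t _ => (Nat.sub_le _ _).trans_lt
    (Nat.pow_lt_pow_right one_lt_two (by omega))]
  exact TM.pk_congr fun t _ => Nat.and_two_pow_sub_one_eq_mod _ _

theorem mrg_A2 (w n : ℕ) (f : ℕ → ℕ) : (pk (2 * w) ((n + 1) / 2) fun t => f (2 * t)) +
    (pk (2 * w) (n / 2) fun t => f (2 * t + 1)) * 2 ^ w = pk w n f := by
  induction n with
  | zero => simp [pk]
  | succ n ih =>
    rw [pk, pk, pk, sum_range_succ, ← pk, ← pk, ← pk, ← ih]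
    rcases Nat.even_or_odd' n with ⟨k, rfl | rfl⟩
    · rw [show (2 * k + 1 + 1) / 2 = k + 1 by omega, show (2 * k + 1) / 2 = k by omega,
        show 2 * k / 2 = k by omega, pk, sum_range_succ, ← pk]
      ring
    · rw [show (2 * k + 1 + 1 + 1) / 2 = k + 1 by omega, show (2 * k + 1 + 1) / 2 = k + 1 by omega,
        show (2 * k + 1) / 2 = k by omega, pk, pk, sum_range_succ _ k, sum_range_succ _ k, ← pk,
        ← pk, pk, pk]
      ring

/-- the digit that belongs to a signed value -/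
def rd_A2 (o p : ℕ) (z : ℤ) : ℕ := (2 ^ (o + p) + z).toNat / 2 ^ p

theorem rd_spec_A2 {o p : ℕ} {z : ℤ} (h : |z| ≤ 2 ^ (o + p)) :
    rd_A2 o p z ≤ 2 ^ (o + 1) ∧ |((rd_A2 o p z : ℤ) - 2 ^ o) * 2 ^ p - z| ≤ 2 ^ p := by
  obtain ⟨h1, h2⟩ := abs_le.1 h
  obtain ⟨d, hd⟩ := Int.eq_ofNat_of_zero_le (show 0 ≤ 2 ^ (o + p) + z by omega)
  have h3 := Nat.div_add_mod d (2 ^ p)
  have h4 := Nat.mod_lt d (show 0 < 2 ^ p by positivity)
  rw [rd_A2, hd, Int.toNat_natCast]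
  refine ⟨Nat.div_le_of_le_mul ?_, ?_⟩
  · zify
    rw [← hd, pow_succ, mul_comm, mul_right_comm, ← pow_add]
    omega
  · zify at h3 h4
    rw [show z = d - 2 ^ o * 2 ^ p by rw [← hd]; ring, abs_le]
    have : (0 : ℤ) ≤ (d : ℤ) % 2 ^ p := Int.emod_nonneg _ (by positivity)
    push_cast
    constructor <;> nlinarith

theorem hf_A2 (x : Par) (hw : 120 ≤ x.c.w) (ho : x.o + 1 < x.c.w) {T n l : ℕ} (b : Bool)
    {P : ℕ → ℕ} {p : ℕ → ℕ → ℕ} {z : ℕ → ℤ} (hP : ∀ j < x.c.B1, P j = pk (2 * x.c.w) n (p j))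
    (e : ∀ t, z t = ∑ j ∈ range x.c.B1, (ent T j l : ℤ) * ((p j t : ℤ) - 2 ^ (x.c.u - 1)))
    (hz : ∀ t < n, |z t| ≤ 2 ^ (x.o + x.sp)) :
    x.hf n T l b P = pk (2 * x.c.w) n fun t => rd_A2 x.o x.sp ((if b then -1 else 1) * z t) := by
  have hp : x.sp ≤ 112 := Nat.sub_le _ _
  have e1 : x.oa n = pk (2 * x.c.w) n fun _ => 2 ^ (x.o + x.sp) := by
    change ones (2 * x.c.w) n <<< (x.o + x.sp) = _
    simp only [Nat.shiftLeft_eq, ones_eq (show 0 < 2 * x.c.w by omega), TM.pk_mul, one_mul]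
  have e2 : x.ob n T l =
      pk (2 * x.c.w) n fun _ => (∑ j ∈ range x.c.B1, ent T j l) * 2 ^ (x.c.u - 1) := by
    change ones (2 * x.c.w) n * sm _ _ <<< (x.c.u - 1) = _
    simp only [Nat.shiftLeft_eq, ones_eq (show 0 < 2 * x.c.w by omega), TM.pk_mul, one_mul, sm_eq]
  have e3 : x.ac T l P = pk (2 * x.c.w) n fun t => ∑ j ∈ range x.c.B1, p j t * ent T j l := by
    rw [Par.ac, sm_eq, ← pk_sum_comm]
    exact sum_congr rfl fun j hj => by rw [← TM.pk_mul, ← hP j (mem_range.1 hj)]; rfl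
  have e4 : ∀ t, z t = (∑ j ∈ range x.c.B1, p j t * ent T j l : ℕ) -
      ((∑ j ∈ range x.c.B1, ent T j l) * 2 ^ (x.c.u - 1) : ℕ) := fun t => by
    push_cast
    rw [e, sum_mul, ← sum_sub_distrib]
    exact sum_congr rfl fun j _ => by ring
  have e5 : cond b (x.oa n + x.ob n T l - x.ac T l P) (x.oa n + x.ac T l P - x.ob n T l) =
      pk (2 * x.c.w) n fun t => (2 ^ (x.o + x.sp) + (if b then -1 else 1) * z t).toNat := by
    have c : (2 : ℤ) ^ (x.o + x.sp) = (2 ^ (x.o + x.sp) : ℕ) := by push_cast; rfl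
    rw [e1, e2, e3, TM.pk_add, TM.pk_add]
    cases b
    · rw [cond_false, TM.pk_sub fun t ht => by have := abs_le.1 (hz t ht); have := e4 t; omega]
      exact TM.pk_congr fun t ht => by
        have := abs_le.1 (hz t ht); have := e4 t; rw [if_neg (by simp)]; omega
    · rw [cond_true, TM.pk_sub fun t ht => by have := abs_le.1 (hz t ht); have := e4 t; omega]
      exact TM.pk_congr fun t ht => by
        have := abs_le.1 (hz t ht); have := e4 t; rw [if_pos rfl]; omega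
  have h1 : ∀ t < n, |(if b then -1 else 1) * z t| ≤ 2 ^ (x.o + x.sp) := fun t ht => by
    cases b <;> simpa using hz t ht
  rw [Par.hf, mE_A2 x (by omega)]
  refine TM.pk_congr fun t ht => ?_
  change dig _ (cond b (_ + _ - _) (_ + _ - _) >>> _) _ % _ = _
  rw [e5, Nat.shiftRight_eq_div_pow, TM.dig_shr (by omega), TM.dig_pk (fun s hs => ?_) ht]
  · exact Nat.mod_eq_of_lt ((rd_spec_A2 (h1 t ht)).1.trans_lt (Nat.pow_lt_pow_right one_lt_two ho))
  · have := abs_le.1 (h1 s hs)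
    have c : (2 : ℤ) ^ (x.o + x.sp + 1) < 2 ^ (2 * x.c.w) := pow_lt_pow_right₀ one_lt_two (by omega)
    rw [pow_succ] at c
    rw [Int.toNat_lt (by omega)]
    push_cast
    omega

theorem Par.s1_spec (x : Par) (hw : 120 ≤ x.c.w) (h1 : 1 ≤ x.c.u) (hu : x.c.u < x.c.w)
    (hB : x.c.B1 ≤ 32) (ho : x.o + 1 < x.c.w) (hg : x.g ≤ 112) {T : ℕ}
    (hT : ∀ j < x.c.B1, ∀ l < x.M, ent T j l ≤ 2 ^ 112) (s : ℕ → Bool) (D : ℕ)
    (hD : ∀ t < x.S, (∑ j ∈ range x.c.B1,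
      |x.c.ldc D (t / x.c.B2 * x.c.S + j * x.c.B2 + t % x.c.B2)|) * 2 ^ x.g ≤ 2 ^ x.o) :
    ∃ r : ℕ → ℕ, x.s1 T s D = pk x.c.w x.N r ∧ ∀ l < x.M, ∀ t < x.S,
      r (l * x.S + t) ≤ 2 ^ (x.o + 1) ∧
      |((r (l * x.S + t) : ℤ) - 2 ^ x.o) * 2 ^ x.sp - (if s l then -1 else 1) *
        ∑ j ∈ range x.c.B1, (ent T j l : ℤ) *
          x.c.ldc D (t / x.c.B2 * x.c.S + j * x.c.B2 + t % x.c.B2)| ≤ 2 ^ x.sp := by
  let z : ℕ → ℕ → ℤ := fun l t => ∑ j ∈ range x.c.B1, (ent T j l : ℤ) *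
    x.c.ldc D (t / x.c.B2 * x.c.S + j * x.c.B2 + t % x.c.B2)
  let R : ℕ → ℕ → ℕ := fun l t => rd_A2 x.o x.sp ((if s l then -1 else 1) * z l t)
  have hz : ∀ l < x.M, ∀ t < x.S, |z l t| ≤ 2 ^ (x.o + x.sp) := fun l hl t ht => by
    refine (abs_sum_le_sum_abs _ _).trans ((sum_le_sum (g := fun j => 2 ^ x.g * 2 ^ x.sp *
      |x.c.ldc D (t / x.c.B2 * x.c.S + j * x.c.B2 + t % x.c.B2)|) fun j hj => ?_).trans ?_)
    · rw [abs_mul, Nat.abs_cast, ← pow_add, show x.g + x.sp = 112 from Nat.add_sub_cancel' hg]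
      exact mul_le_mul_of_nonneg_right (by exact_mod_cast hT j (mem_range.1 hj) l hl) (abs_nonneg _)
    · rw [← mul_sum, pow_add, mul_right_comm, mul_comm (2 ^ x.g)]
      exact mul_le_mul_of_nonneg_right (hD t ht) (by positivity)
  have hR : ∀ l, ∀ t < x.S, R ((l * x.S + t) / x.S) ((l * x.S + t) % x.S) = R l t := fun l t ht => by
    rw [Nat.mul_add_mod_of_lt ht, add_comm, Nat.add_mul_div_right _ _ (by omega),
      Nat.div_eq_of_lt ht, zero_add]
  have hd : ∀ j < x.c.B1, ∀ t < x.S, dig x.c.w (x.pln D j) t =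
      x.c.de D (t / x.c.B2 * x.c.S + j * x.c.B2 + t % x.c.B2) := fun j hj t ht => by
    rw [x.pln_eq hu D hj, TM.dig_pk (fun s _ => (Cfg.de_lt _ _).trans
      (Nat.pow_lt_pow_right one_lt_two hu)) ht]
  refine ⟨fun τ => R (τ / x.S) (τ % x.S), ?_, fun l hl t ht => ?_⟩
  · rw [Par.s1, hor_eq, show x.N = x.M * x.S from rfl, TM.pk_pk]
    refine TM.pk_congr fun l hl => ?_
    rw [TM.pk_congr (hR l), ← mrg_A2, ← Nat.shiftLeft_eq]
    refine congrArg₂ (· + · <<< x.c.w) (hf_A2 x hw ho _ (z := fun t => z l (2 * t)) (fun j hj => ?_)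
      (fun _ => rfl) fun t (ht : t < (x.S + 1) / 2) => hz l hl _ (by omega)) (hf_A2 x hw ho _
        (z := fun t => z l (2 * t + 1)) (fun j hj => ?_) (fun _ => rfl)
          fun t (ht : t < x.S / 2) => hz l hl _ (by omega))
    · rw [Par.pe, mE_A2 x (by omega)]
      refine TM.pk_congr fun t ht => ?_
      have := dig2_A2 x.c.w (x.pln D j) 0 t
      rw [mul_zero, pow_zero, Nat.div_one, add_zero] at this
      exact this.trans (hd j hj _ (by change t < (x.S + 1) / 2 at ht; omega))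
    · rw [Par.po, mE_A2 x (by omega)]
      refine TM.pk_congr fun t ht => ?_
      have := dig2_A2 x.c.w (x.pln D j) 1 t
      rw [mul_one, ← Nat.shiftRight_eq_div_pow] at this
      exact this.trans (hd j hj _ (by change t < x.S / 2 at ht; omega))
  · simp only [hR l t ht]
    exact rd_spec_A2 (by cases s l <;> simpa using hz l hl t ht)

end Pool.Agent.MP_48470b_gt.Pj
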