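import Pool.Agent.MP_48470b_gt.Pj.A1

/-! One step of the substitution on packed digits. -/

open Finset

namespace Pool.Agent.MP_48470b_gt.Pj

open TT
open TM (pk dig)

/-- the masked digits -/
def md (N L K : ℕ) (d : ℕ → ℕ) (t : ℕ) : ℕ := if t < N ∧ K ≤ t % L then d t else 0

/-- the digits after one step -/
def sd (N S I L κ K : ℕ) (d : ℕ → ℕ) (τ : ℕ) : ℕ :=
  d τ + if S - I ≤ τ then
    (κ * md N L K d (τ - (S - I)) + if S ≤ τ then hh * md N L K d (τ - S) else 0) / 2 ^ 27 else 0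

theorem pk_shl_A3 (w a n : ℕ) (f : ℕ → ℕ) :
    pk w n f * 2 ^ (w * a) = pk w (a + n) fun t => if a ≤ t then f (t - a) else 0 := by
  rw [TM.pk_split, TM.pk_ext (a := 0) (Nat.zero_le a) fun t _ ht => if_neg ht.not_ge, mul_comm]
  simp [pk]

theorem Par.st_eq (x : Par) (hw : 27 ≤ x.c.w) {I L κ K m : ℕ} (hI : I < x.S) (hL : L ∣ x.N)
    (h0 : 0 < L) (hK : K ≤ L) {d : ℕ → ℕ} (hd : ∀ t < x.N, d t ≤ m)
    (hm : m * (κ + hh) < 2 ^ x.c.w) :
    x.st I L κ K (pk x.c.w x.N d) = pk x.c.w x.N (sd x.N x.S I L κ K d) := by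
  have hp : 0 < 2 ^ x.c.w := by positivity
  have hd' : ∀ t < x.N, d t < 2 ^ x.c.w := fun t ht => (hd t ht).trans_lt
    ((Nat.le_mul_of_pos_right m (Nat.add_pos_right κ (by decide))).trans_lt hm)
  have hmd : ∀ t, md x.N L K d t ≤ m := fun t => by
    unfold md
    split_ifs with h
    exacts [hd t h.1, Nat.zero_le _]
  have e1 : Nat.land (pk x.c.w x.N d) (x.gm L K) = pk x.c.w x.N (md x.N L K d) := by
    rw [x.gm_eq (by omega) hL h0 hK]
    refine (TM.land_pk (fun t _ => by split_ifs <;> omega) _).trans (TM.pk_congr fun t ht => ?_)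
    rw [TM.dig_pk hd' ht, md]
    by_cases h : K ≤ t % L
    · rw [if_pos h, if_pos ⟨ht, h⟩, Nat.and_two_pow_sub_one_eq_mod, Nat.mod_eq_of_lt (hd' t ht)]
    · rw [if_neg h, if_neg fun e => h e.2, Nat.and_zero]
  have e2 : ∀ y, x.zz I κ y = y * κ + y * hh * 2 ^ (x.c.w * I) := fun y => by
    unfold Par.zz
    rcases h : Nat.beq I 1 with _ | _
    · exact congrArg (y * κ + ·) (Nat.shiftLeft_eq _ _)
    · rw [Nat.eq_of_beq_eq_true h, mul_one, mul_assoc, ← mul_add, ← Nat.shiftLeft_eq]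
      rfl
  obtain ⟨F, hF⟩ : ∃ F : ℕ → ℕ, F = fun τ => if x.S - I ≤ τ then (κ * md x.N L K d (τ - (x.S - I)) +
    if x.S ≤ τ then hh * md x.N L K d (τ - x.S) else 0) else 0 := ⟨_, rfl⟩
  have hF' : ∀ τ, F τ < 2 ^ x.c.w := fun τ => by
    have h1 := Nat.mul_le_mul_left κ (hmd (τ - (x.S - I)))
    have h2 := Nat.mul_le_mul_left hh (hmd (τ - x.S))
    rw [mul_comm, add_mul] at hm
    simp only [hF]
    split_ifs <;> omega
  have e3 : x.zz I κ (pk x.c.w x.N (md x.N L K d)) * 2 ^ (x.c.w * (x.S - I)) =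
      pk x.c.w (x.S + x.N) F := by
    rw [e2, add_mul, mul_assoc _ (2 ^ _), ← pow_add, ← mul_add, Nat.add_sub_cancel' hI.le,
      TM.pk_mul _ _ _ hh, pk_shl_A3, ← TM.pk_ext (f := md x.N L K d) (Nat.le_add_left x.N I)
        fun t ht _ => if_neg fun e => ht.not_gt e.1, TM.pk_mul, pk_shl_A3, ← add_assoc,
      Nat.sub_add_cancel hI.le, TM.pk_add, hF]
    refine TM.pk_congr fun t _ => ?_
    split_ifs <;> first | omega | simp only [mul_comm, add_zero]
  have e4 : 27 ≤ x.c.w * (x.S - I) := hw.trans (Nat.le_mul_of_pos_right _ (by omega))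
  have e5 : Nat.shiftLeft (x.zz I κ (pk x.c.w x.N (md x.N L K d))) (x.c.w * (x.S - I) - 27) =
      pk x.c.w (x.S + x.N) F / 2 ^ 27 := by
    rw [← e3, ← Nat.sub_add_cancel e4, pow_add, ← mul_assoc, Nat.mul_div_cancel _ (by positivity),
      Nat.add_sub_cancel]
    exact Nat.shiftLeft_eq _ _
  change pk x.c.w x.N d + (Nat.shiftLeft (x.zz I κ (Nat.land (pk x.c.w x.N d) (x.gm L K)))
    (x.c.w * (x.S - I) - 27) &&& cc1 x.c.w (x.c.w - 27) x.N) = _
  have hq : 2 ^ (x.c.w - 27) ≤ 2 ^ x.c.w := Nat.pow_le_pow_right two_pos (Nat.sub_le _ _)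
  rw [e1, e5, cc1_eq (by omega), TM.land_pk fun t _ => by omega, TM.pk_add]
  refine TM.pk_congr fun t ht => ?_
  rw [Nat.and_two_pow_sub_one_eq_mod, TM.dig_shr (by omega),
    TM.dig_pk (fun s _ => hF' s) (by omega), Nat.mod_eq_of_lt (Nat.div_lt_of_lt_mul (by
      rw [← pow_add, Nat.add_sub_cancel' hw]
      exact hF' t)), hF, sd]
  beta_reduce
  split_ifs <;> simp only [Nat.zero_div]

end Pool.Agent.MP_48470b_gt.Pj
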