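import Mathlib
import Pool.Agent.MP_48470b_gt.Pj.X

open Finset

namespace Pool.Agent.MP_48470b_gt.Pj

variable {A : Type*} [CommRing A] [Algebra ℝ A] {ν : Seminorm ℝ A}

lemma sum_B1 {n : ℕ} {g : ℕ → ℝ} {μ : ℕ → A} {W : ℝ} (hW : ∀ t, ν (μ t) ≤ W) :
    ν (∑ t ∈ range n, g t • μ t) ≤ W * ∑ t ∈ range n, |g t| := by
  induction n with
  | zero => simp
  | succ n ih =>
    rw [sum_range_succ, sum_range_succ, mul_add]
    refine (map_add_le_add ν _ _).trans (add_le_add ih ?_)
    rw [map_smul_eq_mul, Real.norm_eq_abs, mul_comm]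
    exact mul_le_mul_of_nonneg_right (hW n) (abs_nonneg _)

lemma shift_B1 {N S s : ℕ} (hs : s ≤ S) (hS : S ≤ N) {g : ℕ → ℝ} {μ : ℕ → A} {W : ℝ}
    (hW : ∀ t, ν (μ t) ≤ W) :
    ν (∑ t ∈ range N, g t • μ (t + s) -
      ∑ τ ∈ range N, (if s ≤ τ then g (τ - s) else 0) • μ τ) ≤
      W * ∑ t ∈ range S, |g (N - S + t)| := by
  obtain ⟨r, rfl⟩ := Nat.exists_eq_add_of_le' hs
  obtain ⟨n, rfl⟩ := Nat.exists_eq_add_of_le' hS
  have e : ∑ τ ∈ range (n + (r + s)), (if s ≤ τ then g (τ - s) else 0) • μ τ =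
      ∑ t ∈ range (n + r), g t • μ (t + s) := by
    rw [show n + (r + s) = s + (n + r) by omega, sum_range_add, sum_eq_zero, zero_add]
    · exact sum_congr rfl fun t _ => by
        rw [if_pos (by omega), Nat.add_sub_cancel_left, add_comm s t]
    · intro t ht
      rw [if_neg (by simpa using ht), zero_smul]
  rw [e, ← add_assoc, sum_range_add, add_sub_cancel_left]
  refine (sum_B1 (g := fun t => g (n + r + t)) (μ := fun t => μ (n + r + t + s))
    fun t => hW _).trans (mul_le_mul_of_nonneg_left ?_ ((apply_nonneg ν _).trans (hW 0)))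
  rw [sum_range_add, show n + r + s - (r + s) = n by omega]
  simp only [← add_assoc]
  exact le_add_of_nonneg_left (sum_nonneg fun _ _ => abs_nonneg _)

theorem step_sem {N S I : ℕ} (hI : I ≤ S) (hS : S ≤ N) (P : ℕ → Prop) [DecidablePred P]
    {μ μ' : ℕ → A} {a b W : ℝ} (ha : 0 ≤ a) (hb : 0 ≤ b) {f f' : ℕ → ℝ}
    (hμ : ∀ t < N, μ' t = μ t + if P t then a • μ (t + S - I) + b • μ (t + S) else 0)
    (hW : ∀ t, ν (μ t) ≤ W)
    (hf : ∀ τ < N, |f' τ - (f τ + if S - I ≤ τ then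
      a * (if τ - (S - I) < N ∧ P (τ - (S - I)) then f (τ - (S - I)) else 0) +
        (if S ≤ τ then b * (if τ - S < N ∧ P (τ - S) then f (τ - S) else 0) else 0) else 0)| ≤ 1) :
    ν (∑ t ∈ range N, f t • μ' t - ∑ t ∈ range N, f' t • μ t) ≤
      W * (N + (a + b) * ∑ t ∈ range S, |f (N - S + t)|) := by
  have W0 : 0 ≤ W := (apply_nonneg ν _).trans (hW 0)
  obtain ⟨g, hg⟩ : ∃ g : ℕ → ℝ, ∀ t, g t = if P t then f t else 0 := ⟨_, fun _ => rfl⟩
  have gl : ∀ c : ℝ, 0 ≤ c →
      ∑ t ∈ range S, |c * g (N - S + t)| ≤ c * ∑ t ∈ range S, |f (N - S + t)| := fun c hc => by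
    rw [mul_sum]
    refine sum_le_sum fun t _ => ?_
    rw [abs_mul, abs_of_nonneg hc, hg]
    refine mul_le_mul_of_nonneg_left ?_ hc
    split_ifs <;> simp
  have s1 := (shift_B1 (ν := ν) (Nat.sub_le S I) hS (g := fun t => a * g t) hW).trans
    (mul_le_mul_of_nonneg_left (gl a ha) W0)
  have s2 := (shift_B1 (ν := ν) (le_refl S) hS (g := fun t => b * g t) hW).trans
    (mul_le_mul_of_nonneg_left (gl b hb) W0)
  have s3 := sum_B1 (ν := ν) (n := N) (g := fun τ => f τ + (if S - I ≤ τ then a * g (τ - (S - I))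
    else 0) + (if S ≤ τ then b * g (τ - S) else 0) - f' τ) hW
  have s4 : ∑ τ ∈ range N, |f τ + (if S - I ≤ τ then a * g (τ - (S - I)) else 0) +
      (if S ≤ τ then b * g (τ - S) else 0) - f' τ| ≤ N := by
    refine (sum_le_sum (g := fun _ => (1 : ℝ)) fun τ hτ => ?_).trans (by simp)
    have hτ' := mem_range.1 hτ
    have := hf τ hτ'
    rw [abs_sub_comm] at this
    refine le_trans (le_of_eq (congrArg (fun z => |z - f' τ|) ?_)) this
    simp only [hg, show τ - (S - I) < N by omega, show τ - S < N by omega, true_and]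
    by_cases h : S - I ≤ τ
    · rw [if_pos h, if_pos h, add_assoc]
    · rw [if_neg h, if_neg h, if_neg (by omega), add_zero]
  have e : ∑ t ∈ range N, f t • μ' t = ∑ t ∈ range N, f t • μ t +
      ∑ t ∈ range N, (a * g t) • μ (t + (S - I)) + ∑ t ∈ range N, (b * g t) • μ (t + S) := by
    rw [← sum_add_distrib, ← sum_add_distrib]
    refine sum_congr rfl fun t ht => ?_
    rw [hμ t (mem_range.1 ht), hg, show t + S - I = t + (S - I) by omega]
    split_ifs
    · module
    · simp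
  have := (map_add_le_add ν _ _).trans (add_le_add ((map_add_le_add ν _ _).trans (add_le_add s1 s2))
    (s3.trans (mul_le_mul_of_nonneg_left s4 W0)))
  refine le_trans (le_of_eq (congrArg ν ?_)) (this.trans (le_of_eq (by ring)))
  simp only [e, add_smul, sub_smul, sum_add_distrib, sum_sub_distrib]
  abel

end Pool.Agent.MP_48470b_gt.Pj
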