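import Mathlib
import Pool.Agent.MP_48470b_gt.Pj.X

/-! Meaning of the tables and of the substitution in the second variable. -/

open Finset

namespace Pool.Agent.MP_48470b_gt.Pj

open TT

variable {A : Type*} [CommRing A] [Algebra ℝ A] {ν : Seminorm ℝ A}

/-- the recursion that defines a table -/
def Tok (n1 d1 T : ℕ) : Prop :=
  (∀ l < 16, ent T 0 l = if l = 0 then 2 ^ 112 else 0) ∧ ∀ j < 32, ∀ l < 16,
    ent T (j + 1) l = (1342177280 * ent T j l +
      if l = 0 then 0 else n1 * ent T j (l - 1) + d1 * ent T (j + 1) (l - 1)) / 1476395008 ∧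
    ent T (j + 1) l ≤ 2 ^ 112

theorem tp_ok : Tok 134424576 0 tp := by unfold Tok; decide +kernel
theorem tq_ok : Tok 131799096 2888028 tq := by unfold Tok; decide +kernel

theorem Tok.le {n1 d1 T : ℕ} (h : Tok n1 d1 T) {j l : ℕ} (hj : j ≤ 32) (hl : l < 16) :
    ent T j l ≤ 2 ^ 112 := by
  rcases j with _ | j
  · rw [h.1 l hl]
    split_ifs
    exacts [le_rfl, Nat.zero_le _]
  · exact (h.2 j hj l hl).2

theorem pow_B2 (hν : ∀ a b, ν (a * b) ≤ ν a * ν b) (h1 : ν 1 ≤ 1) {V : A} (hV : ν V ≤ 1)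
    (l : ℕ) : ν (V ^ l) ≤ 1 := by
  induction l with
  | zero => rwa [pow_zero]
  | succ l ih => exact pow_succ V l ▸ (hν _ _).trans (mul_le_one₀ ih (apply_nonneg _ _) hV)

theorem sum_B2 {ι : Type*} (s : Finset ι) (f : ι → A) : ν (∑ i ∈ s, f i) ≤ ∑ i ∈ s, ν (f i) :=
  Finset.le_sum_of_subadditive ν (map_zero ν).le (map_add_le_add ν) s f

theorem smul_B2 {c b : ℝ} {x : A} (hc : 0 ≤ c) (hx : ν x ≤ b) : ν (c • x) ≤ c * b := by
  rw [map_smul_eq_mul, Real.norm_of_nonneg hc]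
  exact mul_le_mul_of_nonneg_left hx hc

theorem tele_B2 (V : A) (n0 n1 d0 d1 : ℝ) (a b r : ℕ → ℝ) (h0 : d0 * b 0 + r 0 = n0 * a 0)
    (m : ℕ) (h : ∀ l < m, d0 * b (l + 1) + r (l + 1) = n0 * a (l + 1) + (n1 * a l + d1 * b l)) :
    (n0 • (1 : A) + n1 • V) * ∑ l ∈ range (m + 1), a l • V ^ l -
      (d0 • (1 : A) - d1 • V) * ∑ l ∈ range (m + 1), b l • V ^ l =
      ∑ l ∈ range (m + 1), r l • V ^ l + (n1 * a m + d1 * b m) • V ^ (m + 1) := by
  induction m with
  | zero =>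
    have h1 := congrArg (algebraMap ℝ A) h0
    simp only [zero_add, sum_range_one, Algebra.smul_def, map_add, map_mul] at h1 ⊢
    linear_combination -h1
  | succ m ih =>
    have h1 := congrArg (algebraMap ℝ A) (h m m.lt_succ_self)
    have h2 := ih fun l hl => h l (hl.trans m.lt_succ_self)
    rw [sum_range_succ _ (m + 1), sum_range_succ _ (m + 1), sum_range_succ _ (m + 1)]
    generalize ∑ l ∈ range (m + 1), a l • V ^ l = x at *
    generalize ∑ l ∈ range (m + 1), b l • V ^ l = y at *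
    generalize ∑ l ∈ range (m + 1), r l • V ^ l = z at *
    simp only [Algebra.smul_def, map_add, map_mul] at h1 h2 ⊢
    linear_combination h2 - V ^ (m + 1) * h1

theorem tab_sem (hν : ∀ a b, ν (a * b) ≤ ν a * ν b) (h1 : ν 1 ≤ 1) {n1 d1 T M : ℕ}
    (hT : Tok n1 d1 T) (hd : d1 < 1476395008) (hM : 1 ≤ M) (hM' : M ≤ 16) {V y : A} (hV : ν V ≤ 1)
    (hy : ν (((1476395008 : ℝ) • (1 : A) - (d1 : ℝ) • V) * y -
      ((1342177280 : ℝ) • (1 : A) + (n1 : ℝ) • V)) ≤ 0) {j : ℕ} (hj : j ≤ 32) :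
    ν ((2 : ℝ) ^ 112 • y ^ j - ∑ l ∈ range M, (ent T j l : ℝ) • V ^ l) ≤ te n1 d1 T M j := by
  obtain ⟨m, rfl⟩ := Nat.exists_eq_add_of_le' hM
  induction j with
  | zero =>
    rw [sum_range_succ', sum_eq_zero fun l hl => by
      rw [hT.1 (l + 1) (by have := mem_range.1 hl; omega), if_neg l.succ_ne_zero, Nat.cast_zero,
        zero_smul], hT.1 0 (by omega), if_pos rfl, pow_zero, pow_zero, zero_add, Nat.cast_pow,
      Nat.cast_ofNat, sub_self, map_zero]
    exact Nat.cast_nonneg _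
  | succ j ih =>
    have ih := ih (by omega)
    let x : ℕ → ℕ := fun l => 1342177280 * ent T j l +
      if l = 0 then 0 else n1 * ent T j (l - 1) + d1 * ent T (j + 1) (l - 1)
    have hx : ∀ l < 16, (1476395008 : ℝ) * ent T (j + 1) l + (x l % 1476395008 : ℕ) = x l :=
      fun l hl => by
        rw [(hT.2 j hj l hl).1]
        exact_mod_cast Nat.div_add_mod (x l) 1476395008
    have h2 := tele_B2 V 1342177280 n1 1476395008 d1 (fun l => ent T j l)
      (fun l => ent T (j + 1) l) (fun l => (x l % 1476395008 : ℕ))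
      (by rw [hx 0 (by omega)]; simp [x]) m (fun l hl => by rw [hx _ (by omega)]; simp [x])
    beta_reduce at h2
    have h3 : ν (∑ l ∈ range (m + 1), ((x l % 1476395008 : ℕ) : ℝ) • V ^ l) ≤
        (m + 1 : ℕ) * 1476395008 := by
      refine (sum_B2 _ _).trans ((sum_le_card_nsmul _ _ 1476395008 fun l _ => ?_).trans ?_)
      · refine (smul_B2 (Nat.cast_nonneg _) (pow_B2 hν h1 hV l)).trans ?_
        rw [mul_one]
        exact_mod_cast (Nat.mod_lt _ (by omega)).le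
      · rw [card_range, nsmul_eq_mul]
    have h4 := smul_B2 (c := n1 * (ent T j m : ℝ) + d1 * ent T (j + 1) m) (by positivity)
      (pow_B2 hν h1 hV (m + 1))
    have h5 : ν ((1342177280 : ℝ) • (1 : A) + (n1 : ℝ) • V) ≤ 1342177280 * 1 + n1 * 1 :=
      (map_add_le_add ν _ _).trans (add_le_add (smul_B2 (by norm_num) h1)
        (smul_B2 (Nat.cast_nonneg _) hV))
    generalize ∑ l ∈ range (m + 1), (ent T j l : ℝ) • V ^ l = s at *
    generalize ∑ l ∈ range (m + 1), (ent T (j + 1) l : ℝ) • V ^ l = s' at *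
    have h6 := (hν _ _).trans (mul_le_mul h5 ih (apply_nonneg _ _) (by positivity))
    have h7 := (hν ((2 : ℝ) ^ 112 • y ^ j) _).trans
      (mul_nonpos_of_nonneg_of_nonpos (apply_nonneg _ _) hy)
    have h8 := smul_B2 (c := (d1 : ℝ)) (Nat.cast_nonneg _)
      ((hν V ((2 : ℝ) ^ 112 • y ^ (j + 1) - s')).trans
        (mul_le_of_le_one_left (apply_nonneg _ _) hV))
    have h9 := ((map_add_le_add ν _ _).trans (add_le_add ((map_add_le_add ν _ _).trans
      (add_le_add h7 h6)) ((map_add_le_add ν _ _).trans (add_le_add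
        ((map_add_le_add ν _ _).trans (add_le_add h3 h4)) h8))))
    rw [← h2] at h9
    have e : (2 : ℝ) ^ 112 • y ^ j * (((1476395008 : ℝ) • (1 : A) - (d1 : ℝ) • V) * y -
        ((1342177280 : ℝ) • (1 : A) + (n1 : ℝ) • V)) +
        ((1342177280 : ℝ) • (1 : A) + (n1 : ℝ) • V) * ((2 : ℝ) ^ 112 • y ^ j - s) +
        (((1342177280 : ℝ) • (1 : A) + (n1 : ℝ) • V) * s -
          ((1476395008 : ℝ) • (1 : A) - (d1 : ℝ) • V) * s' +
          (d1 : ℝ) • (V * ((2 : ℝ) ^ 112 • y ^ (j + 1) - s'))) =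
        (1476395008 : ℝ) • ((2 : ℝ) ^ 112 • y ^ (j + 1) - s') := by
      simp only [Algebra.smul_def]
      ring
    rw [e, map_smul_eq_mul, Real.norm_of_nonneg (by norm_num)] at h9
    have t : te n1 d1 T (m + 1) (j + 1) = ((1342177280 + n1) * te n1 d1 T (m + 1) j +
        (m + 1) * 1476395008 + (n1 * ent T j m + d1 * ent T (j + 1) m)) / (1476395008 - d1) + 1 :=
      rfl
    have hp : 0 < 1476395008 - d1 := Nat.sub_pos_of_lt hd
    have t2 := (Nat.cast_le (α := ℝ)).2 (Nat.lt_mul_div_succ ((1342177280 + n1) *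
      te n1 d1 T (m + 1) j + (m + 1) * 1476395008 + (n1 * ent T j m + d1 * ent T (j + 1) m)) hp).le
    rw [← t, Nat.cast_mul, Nat.cast_sub hd.le] at t2
    have hp' : (0 : ℝ) < 1476395008 - d1 := sub_pos.2 (by exact_mod_cast hd)
    refine le_of_mul_le_mul_left ?_ hp'
    push_cast at t2 h9
    linarith

theorem s1_sem (hν : ∀ a b, ν (a * b) ≤ ν a * ν b) (h1 : ν 1 ≤ 1) {B M S g p : ℕ} {V y : A}
    (hV : ν V ≤ 1) {T f r : ℕ → ℕ → ℝ} {e n : ℕ → ℝ} {m : ℕ → A} {W : ℝ} (hW : 0 ≤ W)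
    (hm : ∀ t < S, ν (m t) ≤ W)
    (he : ∀ j < B, ν ((2 : ℝ) ^ (g + p) • y ^ j - ∑ l ∈ range M, T j l • V ^ l) ≤ e j)
    (hn : ∀ j < B, ∑ t ∈ range S, |f j t| ≤ n j)
    (hr : ∀ l < M, ∀ t < S, |r l t * 2 ^ p - ∑ j ∈ range B, T j l * f j t| ≤ 2 ^ p) :
    ν ((2 : ℝ) ^ g • ∑ j ∈ range B, ∑ t ∈ range S, f j t • (y ^ j * m t) -
      ∑ l ∈ range M, ∑ t ∈ range S, r l t • (V ^ l * m t)) ≤
      W * ((∑ j ∈ range B, e j * n j) / 2 ^ p + M * S) := by
  have hp : (0 : ℝ) < 2 ^ p := by positivity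
  have e1 : ∑ j ∈ range B, ∑ t ∈ range S, f j t • ((∑ l ∈ range M, T j l • V ^ l) * m t) =
      ∑ l ∈ range M, ∑ t ∈ range S, (∑ j ∈ range B, T j l * f j t) • (V ^ l * m t) := by
    simp only [sum_mul, smul_sum, sum_smul]
    rw [sum_comm, sum_comm (s := range M)]
    refine sum_congr rfl fun t _ => ?_
    rw [sum_comm]
    refine sum_congr rfl fun l _ => sum_congr rfl fun j _ => ?_
    rw [smul_mul_assoc, smul_smul, mul_comm]
  have e2 : (2 : ℝ) ^ p • ((2 : ℝ) ^ g • ∑ j ∈ range B, ∑ t ∈ range S, f j t • (y ^ j * m t) -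
      ∑ l ∈ range M, ∑ t ∈ range S, r l t • (V ^ l * m t)) =
      ∑ j ∈ range B, ∑ t ∈ range S,
        f j t • (((2 : ℝ) ^ (g + p) • y ^ j - ∑ l ∈ range M, T j l • V ^ l) * m t) -
      ∑ l ∈ range M, ∑ t ∈ range S,
        (r l t * 2 ^ p - ∑ j ∈ range B, T j l * f j t) • (V ^ l * m t) := by
    simp only [sub_mul, smul_sub, sub_smul, sum_sub_distrib]
    rw [e1, sub_sub_sub_cancel_right]
    simp only [smul_sum, smul_mul_assoc, smul_smul, pow_add]
    congr 1
    · exact sum_congr rfl fun j _ => sum_congr rfl fun t _ => by congr 1; ring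
    · exact sum_congr rfl fun j _ => sum_congr rfl fun t _ => by congr 1; ring
  have b1 : ν (∑ j ∈ range B, ∑ t ∈ range S,
      f j t • (((2 : ℝ) ^ (g + p) • y ^ j - ∑ l ∈ range M, T j l • V ^ l) * m t)) ≤
      W * ∑ j ∈ range B, e j * n j := by
    rw [mul_sum]
    refine (sum_B2 _ _).trans (sum_le_sum fun j hj => (sum_B2 _ _).trans ?_)
    have h2 := he j (mem_range.1 hj)
    have h3 : 0 ≤ e j := (apply_nonneg _ _).trans h2
    refine le_trans (sum_le_sum fun t ht => ?_) ((mul_sum _ _ (W * e j)).symm.trans_le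
      ((mul_le_mul_of_nonneg_left (hn j (mem_range.1 hj)) (mul_nonneg hW h3)).trans_eq
        (mul_assoc _ _ _)))
    rw [map_smul_eq_mul, Real.norm_eq_abs, mul_comm, mul_comm W]
    exact mul_le_mul_of_nonneg_right ((hν _ _).trans
      (mul_le_mul h2 (hm t (mem_range.1 ht)) (apply_nonneg _ _) h3)) (abs_nonneg _)
  have b2 : ν (∑ l ∈ range M, ∑ t ∈ range S,
      (r l t * 2 ^ p - ∑ j ∈ range B, T j l * f j t) • (V ^ l * m t)) ≤
      M * (S * (2 ^ p * W)) := by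
    refine (sum_B2 _ _).trans ((sum_le_card_nsmul _ _ (S * (2 ^ p * W)) fun l hl =>
      (sum_B2 _ _).trans ((sum_le_card_nsmul _ _ (2 ^ p * W) fun t ht => ?_).trans ?_)).trans ?_)
    · rw [map_smul_eq_mul, Real.norm_eq_abs]
      exact mul_le_mul (hr l (mem_range.1 hl) t (mem_range.1 ht)) ((hν _ _).trans
        ((mul_le_of_le_one_left (apply_nonneg _ _) (pow_B2 hν h1 hV l)).trans
          (hm t (mem_range.1 ht)))) (apply_nonneg _ _) hp.le
    · rw [card_range, nsmul_eq_mul]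
    · rw [card_range, nsmul_eq_mul]
  have b3 := (map_sub_le_add ν _ _).trans (add_le_add b1 b2)
  rw [← e2, map_smul_eq_mul, Real.norm_of_nonneg hp.le] at b3
  refine le_of_mul_le_mul_left (b3.trans_eq ?_) hp
  field_simp

end Pool.Agent.MP_48470b_gt.Pj
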