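import Pool.Agent.MP_48470b_gt.Pj.A3
import Pool.Agent.MP_48470b_gt.Pj.B1

/-! The mismatch on the boundary of the chart: the loop of the substitution. -/

open Finset

namespace Pool.Agent.MP_48470b_gt.Pj

open TT
open TM (pk dig pk_add pk_sub pk_mul pk_congr)

theorem up_eq (κ m : ℕ) : up κ m = m + m * (κ + hh) / 2 ^ 27 + 1 := by
  simp only [up, Nat.add_eq, Nat.mul_eq, Nat.shiftRight_eq, Nat.shiftRight_eq_div_pow]

theorem lt_div (z : ℕ) : (z : ℝ) / 2 ^ 27 - 1 ≤ (z / 2 ^ 27 : ℕ) ∧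
    ((z / 2 ^ 27 : ℕ) : ℝ) ≤ z / 2 ^ 27 := by
  have h1 := Nat.div_add_mod z (2 ^ 27)
  have h2 := Nat.mod_lt z (show 0 < 2 ^ 27 by positivity)
  have h3 : ((2 ^ 27 * (z / 2 ^ 27) + z % 2 ^ 27 : ℕ) : ℝ) = z := by rw [h1]
  have h4 : ((z % 2 ^ 27 : ℕ) : ℝ) ≤ (2 ^ 27 : ℕ) := Nat.cast_le.2 h2.le
  have h5 : (0 : ℝ) ≤ (z % 2 ^ 27 : ℕ) := Nat.cast_nonneg _
  rw [Nat.cast_add, Nat.cast_mul] at h3
  push_cast at h3 h4
  constructor <;> linarith

/-- the growth factor -/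
noncomputable def rho (κ : ℕ) : ℝ := 1 + (κ / 2 ^ 27 + hh / 2 ^ 27)

theorem one_le_rho (κ : ℕ) : 1 ≤ rho κ := le_add_of_nonneg_right (by positivity)

theorem up_ge (κ m : ℕ) : rho κ * m ≤ up κ m := by
  have := (lt_div (m * (κ + hh))).1
  rw [up_eq, Nat.cast_add, Nat.cast_add, rho]
  rw [Nat.cast_mul, Nat.cast_add] at this
  push_cast
  linarith

theorem upn_succ (κ m n : ℕ) : upn κ m (n + 1) = up κ (upn κ m n) := rfl

theorem upn_mono (κ m : ℕ) : Monotone (upn κ m) := monotone_nat_of_le_succ fun n => by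
  rw [upn_succ, up_eq]; omega

theorem le_upn (κ m n : ℕ) : m ≤ upn κ m n := upn_mono κ m (Nat.zero_le n)

theorem md_le {N L K m : ℕ} {d : ℕ → ℕ} (hd : ∀ t < N, d t ≤ m) (t : ℕ) : md N L K d t ≤ m := by
  unfold md
  split_ifs with h
  exacts [hd t h.1, Nat.zero_le _]

theorem sd_le {N S I L κ K m : ℕ} {d : ℕ → ℕ} (hd : ∀ t < N, d t ≤ m) :
    ∀ t < N, sd N S I L κ K d t ≤ up κ m := fun t ht => by
  have h1 := Nat.mul_le_mul_left κ (md_le (L := L) (K := K) hd (t - (S - I)))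
  have h2 := Nat.mul_le_mul_left hh (md_le (L := L) (K := K) hd (t - S))
  have h3 := hd t ht
  have h4 : ∀ z, z ≤ κ * m + hh * m → z / 2 ^ 27 ≤ m * (κ + hh) / 2 ^ 27 := fun z hz =>
    Nat.div_le_div_right (by rwa [mul_comm, add_mul])
  rw [up_eq, sd]
  split_ifs
  · have := h4 _ (add_le_add h1 h2)
    omega
  · have := h4 (κ * md N L K d (t - (S - I)) + 0) (by omega)
    omega
  · omega

theorem md_sub (N L K : ℕ) (d o : ℕ → ℕ) (t : ℕ) :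
    (if t < N ∧ K ≤ t % L then (d t : ℝ) - o t else 0) = md N L K d t - md N L K o t := by
  unfold md
  split_ifs <;> simp

theorem sd_sub (N S I L κ K : ℕ) (d o : ℕ → ℕ) (τ : ℕ) :
    |(sd N S I L κ K d τ - sd N S I L κ K o τ : ℝ) - ((d τ - o τ : ℝ) + if S - I ≤ τ then
      κ / 2 ^ 27 * (if τ - (S - I) < N ∧ K ≤ (τ - (S - I)) % L then
        (d (τ - (S - I)) : ℝ) - o (τ - (S - I)) else 0) +
      (if S ≤ τ then hh / 2 ^ 27 * (if τ - S < N ∧ K ≤ (τ - S) % L then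
        (d (τ - S) : ℝ) - o (τ - S) else 0) else 0) else 0)| ≤ 1 := by
  rw [md_sub, md_sub, sd, sd, abs_le]
  split_ifs
  · have h1 := lt_div (κ * md N L K d (τ - (S - I)) + hh * md N L K d (τ - S))
    have h2 := lt_div (κ * md N L K o (τ - (S - I)) + hh * md N L K o (τ - S))
    rw [Nat.cast_add, Nat.cast_mul, Nat.cast_mul] at h1 h2
    rw [Nat.cast_add, Nat.cast_add]
    constructor <;> linarith [h1.1, h1.2, h2.1, h2.2]
  · have h1 := lt_div (κ * md N L K d (τ - (S - I)) + 0)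
    have h2 := lt_div (κ * md N L K o (τ - (S - I)) + 0)
    rw [Nat.cast_add, Nat.cast_mul, Nat.cast_zero] at h1 h2
    rw [Nat.cast_add, Nat.cast_add]
    constructor <;> linarith [h1.1, h1.2, h2.1, h2.2]
  · simp

theorem shl_ones {w : ℕ} (hw : 0 < w) (n v : ℕ) :
    Nat.shiftLeft (ones w n) v = pk w n fun _ => 2 ^ v := by
  rw [Nat.shiftLeft_eq', Nat.shiftLeft_eq, ones_eq hw, pk_mul]
  simp only [one_mul]

/-- the norm of a difference of digits -/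
theorem nrm_sub {w v n : ℕ} {d o : ℕ → ℕ} (hv : v < w) (hn : n * 2 ^ v < 2 ^ w - 1)
    (hd : ∀ t < n, d t < 2 ^ v) (ho : ∀ t < n, o t ≤ 2 ^ v) :
    ∑ t ∈ range n, |(d t : ℝ) - o t| ≤
      nrm w v n (Nat.add (pk w n d) (Nat.sub (Nat.shiftLeft (ones w n) v) (pk w n o))) := by
  rw [shl_ones (by omega), Nat.sub_eq, pk_sub ho, Nat.add_eq, pk_add]
  have h := nrm_ge (e := fun t => d t + (2 ^ v - o t)) hv hn fun t ht => by
    have := hd t ht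
    rw [pow_succ]
    omega
  rw [sum_congr rfl fun t ht => show |((d t + (2 ^ v - o t) : ℕ) : ℤ) - 2 ^ v| = |(d t : ℤ) - o t| by
    rw [Nat.cast_add, Nat.cast_sub (ho t (mem_range.1 ht))]
    push_cast
    ring_nf] at h
  exact_mod_cast h

variable {A : Type*} [CommRing A] [Algebra ℝ A] {ν : Seminorm ℝ A}

namespace Par

variable (x : Par)

theorem N_eq : x.N = x.M * x.S := rfl

theorem es_ge (hM : 1 ≤ x.M) (hv : x.v < x.c.w) (hn : x.N * 2 ^ x.v < 2 ^ x.c.w - 1) (κ : ℕ)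
    {d o : ℕ → ℕ} (hd : ∀ t < x.N, d t < 2 ^ x.v) (ho : ∀ t < x.N, o t < 2 ^ x.v) :
    x.N + (κ / 2 ^ 27 + hh / 2 ^ 27 : ℝ) * ∑ t ∈ range x.S,
      |(d (x.N - x.S + t) : ℝ) - o (x.N - x.S + t)| ≤ x.es κ (pk x.c.w x.N d) (pk x.c.w x.N o) := by
  have hS : x.S ≤ x.N := Nat.le_mul_of_pos_left _ hM
  have hp : 2 ^ x.v < 2 ^ x.c.w := Nat.pow_lt_pow_right one_lt_two hv
  have h := nrm_sub (d := fun t => d (x.N - x.S + t)) (o := fun t => o (x.N - x.S + t)) hv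
    ((Nat.mul_le_mul_right _ hS).trans_lt hn) (fun t ht => hd _ (by omega))
    fun t ht => (ho _ (by omega)).le
  rw [es, tb, x.top_eq hM fun t ht => (hd t ht).trans hp, x.top_eq hM fun t ht => (ho t ht).trans hp]
  generalize nrm _ _ _ _ = z at h ⊢
  have h1 := (lt_div (z * (κ + hh))).1
  have h2 := mul_le_mul_of_nonneg_left h (show (0 : ℝ) ≤ κ / 2 ^ 27 + hh / 2 ^ 27 by positivity)
  rw [Nat.cast_mul, Nat.cast_add] at h1
  simp only [Nat.add_eq, Nat.mul_eq, Nat.shiftRight_eq, Nat.shiftRight_eq_div_pow]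
  rw [Nat.cast_add, Nat.cast_add]
  push_cast
  linarith

/-- **One phase of the substitution.** -/
theorem phase (hM : 1 ≤ x.M) (hw : 27 ≤ x.c.w) (hv : x.v < x.c.w)
    (hn : x.N * 2 ^ x.v < 2 ^ x.c.w - 1) {I B κ m : ℕ} (hI : I < x.S) (hL : B * I ∣ x.N)
    (h0 : 0 < B * I) (hm : upn κ m (B - 1) * (κ + hh) < 2 ^ x.c.w) (hm' : upn κ m (B - 1) < 2 ^ x.v)
    {μ : ℕ → ℕ → A} {W : ℝ} (hW0 : 0 ≤ W)
    (hμ : ∀ k, k + 1 < B → ∀ t < x.N, μ (k + 1) t = μ k t + if (k + 1) * I ≤ t % (B * I) then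
      (κ / 2 ^ 27 : ℝ) • μ k (t + x.S - I) + (hh / 2 ^ 27 : ℝ) • μ k (t + x.S) else 0)
    (hW : ∀ k t, ν (μ k t) ≤ W * rho κ ^ k) {d o : ℕ → ℕ} (hd : ∀ t < x.N, d t ≤ m)
    (ho : ∀ t < x.N, o t ≤ m) {p : A} {e : ℕ}
    (he : ν (p - ∑ t ∈ range x.N, (d t - o t : ℝ) • μ (B - 1) t) ≤ W * rho κ ^ (B - 1) * e)
    {n : ℕ} (hB : n ≤ B - 1) :
    ∃ d' o' : ℕ → ℕ, (x.rn I B κ (pk x.c.w x.N o) ⟨pk x.c.w x.N d, e⟩ n).G = pk x.c.w x.N d' ∧
      x.ro I B κ (pk x.c.w x.N o) n = pk x.c.w x.N o' ∧ (∀ t < x.N, d' t ≤ upn κ m n) ∧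
      (∀ t < x.N, o' t ≤ upn κ m n) ∧
      ν (p - ∑ t ∈ range x.N, (d' t - o' t : ℝ) • μ (B - 1 - n) t) ≤
        W * rho κ ^ (B - 1 - n) * (x.rn I B κ (pk x.c.w x.N o) ⟨pk x.c.w x.N d, e⟩ n).e := by
  induction n with
  | zero => exact ⟨d, o, rfl, rfl, hd, ho, he⟩
  | succ n ih =>
    obtain ⟨d', o', e1, e2, b1, b2, h⟩ := ih (by omega)
    obtain ⟨k, hk⟩ : ∃ k, B - 1 - n = k + 1 := ⟨B - 1 - (n + 1), by omega⟩
    have hk' : B - 1 - (n + 1) = k := by omega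
    have hu := upn_mono κ m (show n ≤ B - 1 by omega)
    have h1 : upn κ m n * (κ + hh) < 2 ^ x.c.w := (Nat.mul_le_mul_right _ hu).trans_lt hm
    have hK : kk I B n = (k + 1) * I := by rw [← hk]; rfl
    have hK' : (k + 1) * I ≤ B * I := Nat.mul_le_mul_right _ (by omega)
    set s := x.rn I B κ (pk x.c.w x.N o) ⟨pk x.c.w x.N d, e⟩ n with hs
    have f1 : x.rn I B κ (pk x.c.w x.N o) ⟨pk x.c.w x.N d, e⟩ (n + 1) =
      ⟨x.st I (B * I) κ (kk I B n) s.G, up κ s.e + x.es κ s.G (x.ro I B κ (pk x.c.w x.N o) n)⟩ := rfl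
    have f2 : x.ro I B κ (pk x.c.w x.N o) (n + 1) =
      x.st I (B * I) κ (kk I B n) (x.ro I B κ (pk x.c.w x.N o) n) := rfl
    rw [f1, f2, e1, e2, hK, x.st_eq hw hI hL h0 hK' b1 h1, x.st_eq hw hI hL h0 hK' b2 h1, hk']
    refine ⟨_, _, rfl, rfl, sd_le b1, sd_le b2, ?_⟩
    have h2 := step_sem (ν := ν) (N := x.N) hI.le (Nat.le_mul_of_pos_left _ hM)
      (fun t => (k + 1) * I ≤ t % (B * I)) (by positivity) (by positivity)
      (f := fun t => (d' t - o' t : ℝ)) (hμ k (by omega)) (hW k)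
      fun τ _ => sd_sub x.N x.S I (B * I) κ ((k + 1) * I) d' o' τ
    have h3 := x.es_ge hM hv hn κ (fun t ht => ((b1 t ht).trans hu).trans_lt hm')
      fun t ht => ((b2 t ht).trans hu).trans_lt hm'
    have h4 : 0 ≤ W * rho κ ^ k := mul_nonneg hW0 (pow_nonneg (by linarith [one_le_rho κ]) _)
    have h5 := mul_le_mul_of_nonneg_left (add_le_add (up_ge κ s.e) h3) h4
    rw [hk, pow_succ] at h
    rw [← sub_add_sub_cancel p]
    refine (map_add_le_add ν _ _).trans ((add_le_add h h2).trans ?_)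
    rw [Nat.cast_add]
    linarith

end Par

/-- half substituted powers -/
def hm (Y s : A) (k e : ℕ) : A := Y ^ min e k * s ^ (e - k)

omit [Algebra ℝ A] in
theorem hm_zero (Y s : A) (e : ℕ) : hm Y s 0 e = s ^ e := by simp [hm]

omit [Algebra ℝ A] in
theorem hm_le (Y s : A) {k e : ℕ} (h : e ≤ k) : hm Y s k e = Y ^ e := by
  simp [hm, h, Nat.sub_eq_zero_of_le h]

theorem hm_succ {U Y s : A} {a b : ℝ} (h : Y = s + U * (b • s + a • 1)) (k e : ℕ) :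
    hm Y s (k + 1) e = hm Y s k e +
      if k + 1 ≤ e then a • (U * hm Y s k (e - 1)) + b • (U * hm Y s k e) else 0 := by
  split_ifs with q
  · obtain ⟨c, rfl⟩ := Nat.exists_eq_add_of_le q
    simp only [hm, show min (k + 1 + c) (k + 1) = k + 1 by omega, show min (k + 1 + c) k = k by omega,
      show min (k + 1 + c - 1) k = k by omega, show k + 1 + c - (k + 1) = c by omega,
      show k + 1 + c - k = c + 1 by omega, show k + 1 + c - 1 - k = c by omega, pow_succ,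
      Algebra.smul_def] at h ⊢
    linear_combination (Y ^ k * s ^ c) * h
  · rw [hm_le _ _ (by omega), hm_le _ _ (by omega), add_zero]

theorem nu_pow (hν : ∀ a b, ν (a * b) ≤ ν a * ν b) (h1 : ν 1 ≤ 1) {y : A} {r : ℝ} (h : ν y ≤ r)
    (k : ℕ) : ν (y ^ k) ≤ r ^ k := by
  induction k with
  | zero => simpa using h1
  | succ k ih =>
    rw [pow_succ, pow_succ]
    exact (hν _ _).trans (mul_le_mul ih h (apply_nonneg _ _) ((apply_nonneg _ _).trans ih))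

theorem nu_mul (hν : ∀ a b, ν (a * b) ≤ ν a * ν b) {a b : A} {r s : ℝ} (h : ν a ≤ r)
    (k : ν b ≤ s) : ν (a * b) ≤ r * s :=
  (hν _ _).trans (mul_le_mul h k (apply_nonneg _ _) ((apply_nonneg _ _).trans h))

theorem nu_hm (hν : ∀ a b, ν (a * b) ≤ ν a * ν b) (h1 : ν 1 ≤ 1) {U Y s : A} {κ : ℕ}
    (h : Y = s + U * ((hh / 2 ^ 27 : ℝ) • s + (κ / 2 ^ 27 : ℝ) • 1)) (hU : ν U ≤ 1) (hs : ν s ≤ 1)
    (k e : ℕ) : ν (hm Y s k e) ≤ rho κ ^ k := by
  have a : (0 : ℝ) ≤ κ / 2 ^ 27 := by positivity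
  have b : (0 : ℝ) ≤ hh / 2 ^ 27 := by positivity
  have hY : ν Y ≤ rho κ := by
    have h2 := map_add_le_add ν ((hh / 2 ^ 27 : ℝ) • s) ((κ / 2 ^ 27 : ℝ) • 1)
    rw [map_smul_eq_mul, map_smul_eq_mul, Real.norm_of_nonneg a, Real.norm_of_nonneg b] at h2
    have h3 := nu_mul hν hU h2
    rw [h, rho]
    refine (map_add_le_add ν _ _).trans ?_
    nlinarith
  have h4 := nu_mul hν (nu_pow hν h1 hY (min e k)) (nu_pow hν h1 hs (e - k))
  rw [one_pow, mul_one] at h4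
  exact h4.trans (pow_le_pow_right₀ (one_le_rho κ) (min_le_right _ _))

/-- the monomials at an intermediate stage -/
def mu (B0 B : ℕ) (U Y0 s0 Y1 s1 : A) (k0 k1 t : ℕ) : A :=
  U ^ (t / (B0 * B)) * (hm Y0 s0 k0 (t % (B0 * B) / B) * hm Y1 s1 k1 (t % B))

variable {B0 B : ℕ} {U Y0 s0 Y1 s1 : A}

omit [Algebra ℝ A] in
theorem mu_eq (k0 k1 l : ℕ) {t : ℕ} (ht : t < B0 * B) : mu B0 B U Y0 s0 Y1 s1 k0 k1 (l * (B0 * B) + t) =
    U ^ l * (hm Y0 s0 k0 (t / B) * hm Y1 s1 k1 (t % B)) := by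
  rw [mu, add_comm, Nat.add_mul_div_right _ _ (by omega), Nat.div_eq_of_lt ht, zero_add,
    Nat.add_mul_mod_self_right, Nat.mod_eq_of_lt ht, ← mul_assoc l, Nat.add_mul_mod_self_right]

omit [Algebra ℝ A] in
theorem mu_eq3 (k0 k1 l : ℕ) {a b : ℕ} (ha : a < B0) (hb : b < B) :
    mu B0 B U Y0 s0 Y1 s1 k0 k1 (l * (B0 * B) + (a * B + b)) =
      U ^ l * (hm Y0 s0 k0 a * hm Y1 s1 k1 b) := by
  rw [mu_eq _ _ _ (by nlinarith), add_comm, Nat.add_mul_div_right _ _ (by omega),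
    Nat.div_eq_of_lt hb, zero_add, Nat.add_mul_mod_self_right, Nat.mod_eq_of_lt hb]

theorem dec3 (h0 : 0 < B0) (h : 0 < B) (t : ℕ) :
    ∃ l a b, a < B0 ∧ b < B ∧ t = l * (B0 * B) + (a * B + b) :=
  ⟨t / (B0 * B), t % (B0 * B) / B, t % (B0 * B) % B,
    Nat.div_lt_of_lt_mul (by rw [mul_comm B]; exact Nat.mod_lt _ (by positivity)), Nat.mod_lt _ h,
    by rw [Nat.div_add_mod', Nat.div_add_mod']⟩

theorem mu_succ1 (h0 : 0 < B0) (h : 0 < B) {a b : ℝ} (hY : Y1 = s1 + U * (b • s1 + a • 1))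
    (k0 k t : ℕ) : mu B0 B U Y0 s0 Y1 s1 k0 (k + 1) t = mu B0 B U Y0 s0 Y1 s1 k0 k t +
      if (k + 1) * 1 ≤ t % (B * 1) then a • mu B0 B U Y0 s0 Y1 s1 k0 k (t + B0 * B - 1) +
        b • mu B0 B U Y0 s0 Y1 s1 k0 k (t + B0 * B) else 0 := by
  obtain ⟨l, i, j, hi, hj, rfl⟩ := dec3 h0 h t
  have e : (l * (B0 * B) + (i * B + j)) % (B * 1) = j := by
    rw [mul_one, show l * (B0 * B) + (i * B + j) = j + (l * B0 + i) * B by ring,
      Nat.add_mul_mod_self_right, Nat.mod_eq_of_lt hj]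
  rw [e, mul_one, mu_eq3 _ _ _ hi hj, mu_eq3 _ _ _ hi hj, hm_succ hY]
  split_ifs with q
  · rw [show l * (B0 * B) + (i * B + j) + B0 * B - 1 = (l + 1) * (B0 * B) + (i * B + (j - 1)) by
      rw [add_one_mul]; omega,
      show l * (B0 * B) + (i * B + j) + B0 * B = (l + 1) * (B0 * B) + (i * B + j) by ring,
      mu_eq3 _ _ _ hi hj, mu_eq3 _ _ _ hi (by omega)]
    simp only [Algebra.smul_def]
    ring
  · simp

theorem mu_succ0 (h0 : 0 < B0) (h : 0 < B) {a b : ℝ} (hY : Y0 = s0 + U * (b • s0 + a • 1))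
    (k1 k t : ℕ) : mu B0 B U Y0 s0 Y1 s1 (k + 1) k1 t = mu B0 B U Y0 s0 Y1 s1 k k1 t +
      if (k + 1) * B ≤ t % (B0 * B) then a • mu B0 B U Y0 s0 Y1 s1 k k1 (t + B0 * B - B) +
        b • mu B0 B U Y0 s0 Y1 s1 k k1 (t + B0 * B) else 0 := by
  obtain ⟨l, i, j, hi, hj, rfl⟩ := dec3 h0 h t
  have e : (k + 1) * B ≤ (l * (B0 * B) + (i * B + j)) % (B0 * B) ↔ k + 1 ≤ i := by
    rw [add_comm (l * _), Nat.add_mul_mod_self_right, Nat.mod_eq_of_lt (by nlinarith)]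
    exact ⟨fun q => by by_contra p; nlinarith, fun q => by nlinarith⟩
  simp only [e]
  rw [mu_eq3 _ _ _ hi hj, mu_eq3 _ _ _ hi hj, hm_succ hY]
  split_ifs with q
  · obtain ⟨c, rfl⟩ : ∃ c, i = c + 1 := ⟨i - 1, by omega⟩
    rw [show l * (B0 * B) + ((c + 1) * B + j) + B0 * B - B = (l + 1) * (B0 * B) + (c * B + j) by
      rw [add_one_mul, add_one_mul]; omega,
      show l * (B0 * B) + ((c + 1) * B + j) + B0 * B = (l + 1) * (B0 * B) + ((c + 1) * B + j) by ring,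
      mu_eq3 _ _ _ hi hj, mu_eq3 _ _ _ (by omega) hj, Nat.add_sub_cancel]
    simp only [Algebra.smul_def]
    ring
  · simp

end Pool.Agent.MP_48470b_gt.Pj
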