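import Pool.Agent.MP_48470b_gt.Pj.A2
import Pool.Agent.MP_48470b_gt.Pj.B2
import Pool.Agent.MP_48470b_gt.Pj.C

/-! The mismatch on the boundary of the chart: soundness of the bound. -/

open Finset

namespace Pool.Agent.MP_48470b_gt.Pj

open TT
open TM (pk dig pk_add pk_sub pk_mul pk_congr sum_range_mul')

variable {A : Type*} [CommRing A] [Algebra ℝ A] {ν : Seminorm ℝ A}

/-- the polynomial as a sum over planes -/
theorem ev_pl (c : Cfg) (X : Fin 3 → A) (f : ℕ → ℤ) : c.ev X f =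
    ∑ j ∈ range c.B1, ∑ t ∈ range (c.B0 * c.B2), (f (t / c.B2 * c.S + j * c.B2 + t % c.B2) : ℝ) •
      (X 1 ^ j * (X 0 ^ (t / c.B2) * X 2 ^ (t % c.B2))) := by
  rw [Cfg.ev, Cfg.sum3, sum_comm]
  refine sum_congr rfl fun j hj => ?_
  rw [sum_range_mul']
  refine sum_congr rfl fun i hi => sum_congr rfl fun k hk => ?_
  have hk := mem_range.1 hk
  obtain ⟨e0, e1, e2, -⟩ := Cfg.comp (mem_range.1 hi) (mem_range.1 hj) hk
  rw [Cfg.mono, e0, e1, e2, add_comm (i * c.B2), Nat.add_mul_div_right _ _ (by omega),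
    Nat.div_eq_of_lt hk, zero_add, Nat.add_mul_mod_self_right, Nat.mod_eq_of_lt hk]
  congr 1
  ring

namespace Par

variable {x : Par}

/-- admissible parameters -/
structure Ok (x : Par) : Prop where
  u1 : 1 ≤ x.c.u
  u : x.c.u < x.c.w
  b0 : 2 ≤ x.c.B0
  b2 : 2 ≤ x.c.B2
  b1 : x.c.B1 ≤ 32
  m1 : 1 ≤ x.M
  m : x.M ≤ 16
  g : x.g ≤ 112
  w : 120 ≤ x.c.w
  v : x.v < x.c.w
  nS : x.S * 2 ^ (x.c.u - 1) < 2 ^ x.c.w - 1
  nN : x.N * 2 ^ x.v < 2 ^ x.c.w - 1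
  mw : x.mx * (x.k0 + x.k1 + hh) < 2 ^ x.c.w
  mv : x.mx + 2 ^ (x.o + 1) < 2 ^ x.v

theorem ok_of (h : x.ok = true) : x.Ok := by
  simp only [ok, Bool.and_eq_true, Nat.ble_eq, Nat.blt_eq] at h
  obtain ⟨⟨⟨⟨⟨⟨⟨⟨⟨⟨⟨⟨⟨h1, h2⟩, h3⟩, h4⟩, h5⟩, h6⟩, h7⟩, h8⟩, h9⟩, h10⟩, h11⟩, h12⟩, h13⟩, h14⟩ := h
  exact ⟨h1, h2, h3, h4, h5, h6, h7, h8, h9, h10, h11, h12, h13, h14⟩

theorem Ok.pn_ge (H : x.Ok) (D : ℕ) {j : ℕ} (hj : j < x.c.B1) :
    ∑ t ∈ range x.S, |x.c.ldc D (t / x.c.B2 * x.c.S + j * x.c.B2 + t % x.c.B2)| ≤ x.pn D j := by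
  rw [pn, x.pln_eq H.u D hj]
  exact nrm_ge (v := x.c.u - 1) (by have := H.u; omega) H.nS fun t _ => by
    rw [Nat.sub_add_cancel H.u1]; exact Cfg.de_lt D _

/-- **The substitution in the second variable.** -/
theorem Ok.s1 (H : x.Ok) (hν : ∀ a b, ν (a * b) ≤ ν a * ν b) (h1 : ν 1 ≤ 1) {n1 d1 T D : ℕ}
    (hT : Tok n1 d1 T) (hd : d1 < 1476395008) (hD : x.okD D = true) (s : ℕ → Bool) {V y : A}
    (hV : ν V ≤ 1) (hy : ν (((1476395008 : ℝ) • (1 : A) - (d1 : ℝ) • V) * y -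
      ((1342177280 : ℝ) • (1 : A) + (n1 : ℝ) • V)) ≤ 0) {m : ℕ → A} {W : ℝ} (hW : 0 ≤ W)
    (hm : ∀ t < x.S, ν (m t) ≤ W) :
    ∃ r : ℕ → ℕ, x.s1 T s D = pk x.c.w x.N r ∧ (∀ t < x.N, r t ≤ 2 ^ (x.o + 1)) ∧
      ν ((2 : ℝ) ^ x.g • ∑ j ∈ range x.c.B1, ∑ t ∈ range x.S,
        (x.c.ldc D (t / x.c.B2 * x.c.S + j * x.c.B2 + t % x.c.B2) : ℝ) • (y ^ j * m t) -
        ∑ l ∈ range x.M, ∑ t ∈ range x.S, ((if s l then -1 else 1) *
          (r (l * x.S + t) - 2 ^ x.o : ℝ)) • (V ^ l * m t)) ≤ W * x.e1 n1 d1 T D := by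
  have ho : x.o + 1 < x.c.w := by
    have := (Nat.pow_lt_pow_iff_right one_lt_two).1 ((Nat.le_add_left _ _).trans_lt H.mv)
    have := H.v
    omega
  have b1 := H.b1
  have b2 := H.m
  have hD' : (x.tn D : ℤ) * 2 ^ x.g ≤ 2 ^ x.o := by
    simp only [okD, Nat.ble_eq, Nat.shiftLeft_eq', Nat.shiftLeft_eq, p2_eq] at hD
    exact_mod_cast hD
  obtain ⟨r, e, h⟩ := x.s1_spec H.w H.u1 H.u H.b1 ho H.g
    (fun j hj l hl => hT.le (by omega) (by omega)) s D fun t ht => by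
      refine le_trans (mul_le_mul_of_nonneg_right ?_ (by positivity)) hD'
      rw [tn, sm_eq, Nat.cast_sum]
      exact sum_le_sum fun j hj => (single_le_sum (f := fun t =>
        |x.c.ldc D (t / x.c.B2 * x.c.S + j * x.c.B2 + t % x.c.B2)|) (fun _ _ => abs_nonneg _)
        (mem_range.2 ht)).trans (H.pn_ge D (mem_range.1 hj))
  have hS : 0 < x.S := Nat.mul_pos (by have := H.b0; omega) (by have := H.b2; omega)
  refine ⟨r, e, fun t ht => ?_, ?_⟩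
  · have := (h (t / x.S) (Nat.div_lt_of_lt_mul (by rwa [mul_comm])) _ (Nat.mod_lt t hS)).1
    rwa [Nat.div_add_mod'] at this
  · have hg : x.g + x.sp = 112 := by have := H.g; unfold sp; rw [Nat.sub_eq]; omega
    refine (s1_sem hν h1 hV (p := x.sp) (T := fun j l => ent T j l) (e := fun j => te n1 d1 T x.M j)
      (n := fun j => x.pn D j) hW hm
      (fun j hj => hg ▸ tab_sem hν h1 hT hd H.m1 H.m hV hy (by omega))
      (fun j hj => by exact_mod_cast H.pn_ge D hj) fun l hl t ht => ?_).trans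
      (mul_le_mul_of_nonneg_left ?_ hW)
    · have h2 := (h l hl t ht).2
      have h3 := (Int.cast_le (R := ℝ)).2 h2
      push_cast at h3
      split_ifs at h3 ⊢
      · rw [← abs_neg]
        exact le_of_eq_of_le (congrArg abs (by ring)) h3
      · exact le_of_eq_of_le (congrArg abs (by ring)) h3
    · rw [e1, sm_eq]
      have h2 := Cfg.le_shr (∑ j ∈ range x.c.B1, te n1 d1 T x.M j * x.pn D j) x.sp
        (x := (∑ j ∈ range x.c.B1, (te n1 d1 T x.M j : ℝ) * x.pn D j) / 2 ^ x.sp)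
        (by rw [div_mul_cancel₀ _ (by positivity)]; push_cast; exact le_rfl)
      rw [← Nat.cast_mul]
      exact (add_le_add h2 le_rfl).trans_eq (Nat.cast_add _ _).symm

/-- **Soundness of the bound.** -/
theorem Ok.bd (H : x.Ok) (hν : ∀ a b, ν (a * b) ≤ ν a * ν b) (h1 : ν 1 ≤ 1) {D D' : ℕ}
    (hD : x.okD D = true) (hD' : x.okD D' = true) {U : A} {X Y : Fin 3 → A} (hU : ν U ≤ 1)
    (s0 : ν (X 0) ≤ 1) (s2 : ν (X 2) ≤ 1)
    (y0 : Y 0 = X 0 + U * ((hh / 2 ^ 27 : ℝ) • X 0 + (x.k0 / 2 ^ 27 : ℝ) • 1))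
    (y2 : Y 2 = X 2 + U * ((hh / 2 ^ 27 : ℝ) • X 2 + (x.k1 / 2 ^ 27 : ℝ) • 1))
    (y1 : (1476395008 : ℝ) • Y 1 = (1342177280 : ℝ) • (1 : A) + (134424576 : ℝ) • U)
    (x1 : ν (((1476395008 : ℝ) • (1 : A) + (2888028 : ℝ) • U) * X 1 -
      ((1342177280 : ℝ) • (1 : A) - (131799096 : ℝ) • U)) ≤ 0) :
    2 ^ x.g * ν (x.c.ev Y (x.c.ldc D) - x.c.ev X (x.c.ldc D')) ≤ x.bd D D' := by
  have b0 := H.b0
  have b2 := H.b2
  have hw := H.w
  have r0 : 0 ≤ rho x.k0 := by linarith [one_le_rho x.k0]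
  have r1 : 0 ≤ rho x.k1 := by linarith [one_le_rho x.k1]
  have n0 := nu_hm hν h1 y0 hU s0
  have n2 := nu_hm hν h1 y2 hU s2
  set μ := mu x.c.B0 x.c.B2 U (Y 0) (X 0) (Y 2) (X 2) with hμ
  have nm : ∀ k0 k1 t, ν (μ k0 k1 t) ≤ rho x.k0 ^ k0 * rho x.k1 ^ k1 := fun k0 k1 t => by
    simpa [hμ, mu] using nu_mul hν (nu_pow hν h1 hU _) (nu_mul hν (n0 _ _) (n2 _ _))
  have hS : x.S = x.c.B0 * x.c.B2 := rfl
  have em : ∀ (k0 k1 : ℕ) (f : ℕ → ℝ), ∑ t ∈ range x.N, f t • μ k0 k1 t =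
      ∑ l ∈ range x.M, ∑ t ∈ range x.S, f (l * x.S + t) •
        (U ^ l * (hm (Y 0) (X 0) k0 (t / x.c.B2) * hm (Y 2) (X 2) k1 (t % x.c.B2))) := fun _ _ f => by
    rw [N_eq, sum_range_mul']
    exact sum_congr rfl fun l _ => sum_congr rfl fun t ht => by
      rw [← mu_eq _ _ _ (mem_range.1 ht)]; rfl
  have t0 : ∀ t < x.S, hm (Y 0) (X 0) (x.c.B0 - 1) (t / x.c.B2) = Y 0 ^ (t / x.c.B2) := fun t ht =>
    hm_le _ _ (Nat.le_sub_one_of_lt (Nat.div_lt_of_lt_mul (by rwa [mul_comm])))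
  have t2 : ∀ t, hm (Y 2) (X 2) (x.c.B2 - 1) (t % x.c.B2) = Y 2 ^ (t % x.c.B2) := fun t =>
    hm_le _ _ (Nat.le_sub_one_of_lt (Nat.mod_lt _ (by omega)))
  obtain ⟨d0, e0, c0, h0⟩ := H.s1 hν h1 tp_ok (by norm_num) hD (fun _ => false) hU (y := Y 1)
    (by simp [y1]) (m := fun t => Y 0 ^ (t / x.c.B2) * Y 2 ^ (t % x.c.B2))
    (W := rho x.k0 ^ (x.c.B0 - 1) * rho x.k1 ^ (x.c.B2 - 1)) (by positivity) fun t ht => by
      rw [← t0 t ht, ← t2]; exact nu_mul hν (n0 _ _) (n2 _ _)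
  obtain ⟨q, eq, cq, hq⟩ := H.s1 hν h1 tq_ok (by norm_num) hD' (fun l => Nat.beq (Nat.mod l 2) 0)
    (V := -U) (y := X 1) (by rwa [map_neg_eq_map]) (by simpa [sub_eq_add_neg] using x1)
    (m := fun t => X 0 ^ (t / x.c.B2) * X 2 ^ (t % x.c.B2)) zero_le_one fun t _ => by
      simpa using nu_mul hν (nu_pow hν h1 s0 _) (nu_pow hν h1 s2 _)
  rw [hS, ← ev_pl, ← hS] at h0 hq
  have eo : x.o0 = pk x.c.w x.N fun _ => 2 ^ x.o := shl_ones (by omega) _ _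
  have m1 := le_upn x.k0 (upn x.k1 (2 ^ (x.o + 1)) (x.c.B2 - 1)) (x.c.B0 - 1)
  have emx : x.mx = upn x.k0 (upn x.k1 (2 ^ (x.o + 1)) (x.c.B2 - 1)) (x.c.B0 - 1) := rfl
  have mw := H.mw
  have mv := H.mv
  have p1 : 2 ^ x.o ≤ 2 ^ (x.o + 1) := Nat.pow_le_pow_right two_pos (by omega)
  rw [emx] at mw mv
  obtain ⟨d1, o1, e1, f1, c1, g1, h2⟩ := x.phase (ν := ν) H.m1 (by omega) H.v H.nN (I := 1)
    (B := x.c.B2) (κ := x.k1) (m := 2 ^ (x.o + 1)) (by rw [hS]; nlinarith)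
    (by rw [mul_one]; exact (Dvd.intro_left _ rfl).mul_left _) (by omega)
    ((Nat.mul_le_mul m1 (by omega)).trans_lt mw) (by omega) (μ := μ (x.c.B0 - 1))
    (W := rho x.k0 ^ (x.c.B0 - 1)) (by positivity)
    (fun k _ t _ => mu_succ1 (by omega) (by omega) y2 _ _ _) (nm _) c0 (o := fun _ => 2 ^ x.o)
    (fun _ _ => p1) (p := (2 : ℝ) ^ x.g • x.c.ev Y (x.c.ldc D)) (e := x.e1 134424576 0 tp D)
    (by
      rw [em]
      convert h0 using 3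
      refine sum_congr rfl fun l _ => sum_congr rfl fun t ht => ?_
      rw [t0 t (mem_range.1 ht), t2]
      simp) le_rfl
  rw [← e0, ← eo] at e1 h2
  rw [← eo] at f1
  change (x.r1 D).G = _ at e1
  change x.o1 = _ at f1
  rw [Nat.sub_self, pow_zero, mul_one] at h2
  obtain ⟨d2, o2, e2, f2, c2, g2, h3⟩ := x.phase (ν := ν) H.m1 (by omega) H.v H.nN (I := x.c.B2)
    (B := x.c.B0) (κ := x.k0) (by rw [hS]; nlinarith) (Dvd.intro_left _ rfl) (by positivity)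
    ((Nat.mul_le_mul_left _ (by omega)).trans_lt mw) (by omega) (μ := fun k => μ k 0) zero_le_one
    (fun k _ t _ => mu_succ0 (by omega) (by omega) y0 _ _ _) (fun k t => by simpa using nm k 0 t)
    c1 g1 (e := (x.r1 D).e) (by rw [one_mul]; exact h2) le_rfl
  rw [← e1, ← f1] at e2 h3
  rw [← f1] at f2
  change (x.r2 D).G = _ at e2
  change x.o2 = _ at f2
  rw [Nat.sub_self, pow_zero, mul_one, one_mul] at h3
  change _ ≤ ((x.r2 D).e : ℝ) at h3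
  have h4 := nrm_sub (d := fun t => d2 t + q t) (o := fun t => o2 t + 2 ^ x.o) H.v H.nN
    (fun t ht => by have := c2 t ht; have := cq t ht; omega)
    fun t ht => by have := g2 t ht; omega
  rw [← pk_add, ← pk_add, ← e2, ← eq, ← f2, ← eo] at h4
  have h5 : ν (∑ t ∈ range x.N, ((d2 t + q t : ℕ) - (o2 t + 2 ^ x.o : ℕ) : ℝ) • μ 0 0 t) ≤
      ∑ t ∈ range x.N, |((d2 t + q t : ℕ) - (o2 t + 2 ^ x.o : ℕ) : ℝ)| := by
    refine (le_sum_of_subadditive ν (map_zero ν).le (map_add_le_add ν) _ _).trans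
      (sum_le_sum fun t _ => ?_)
    rw [map_smul_eq_mul, Real.norm_eq_abs]
    exact mul_le_of_le_one_right (abs_nonneg _) (by simpa using nm 0 0 t)
  have h6 : ∑ l ∈ range x.M, ∑ t ∈ range x.S, ((if Nat.beq (Nat.mod l 2) 0 then -1 else 1) *
      (q (l * x.S + t) - 2 ^ x.o : ℝ)) • ((-U) ^ l * (X 0 ^ (t / x.c.B2) * X 2 ^ (t % x.c.B2))) =
      -∑ t ∈ range x.N, (q t - 2 ^ x.o : ℝ) • μ 0 0 t := by
    rw [em, ← sum_neg_distrib]
    refine sum_congr rfl fun l _ => ?_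
    rw [← sum_neg_distrib]
    refine sum_congr rfl fun t _ => ?_
    rw [hm_zero, hm_zero]
    rcases Nat.even_or_odd l with p | p
    · rw [if_pos (Nat.beq_eq ▸ Nat.even_iff.1 p), p.neg_pow, neg_one_mul, neg_smul]
    · rw [if_neg (Nat.beq_eq ▸ (Nat.odd_iff.1 p).trans_ne one_ne_zero), p.neg_pow, one_mul, neg_mul, smul_neg]
  rw [h6, one_mul] at hq
  have h7 : (2 : ℝ) ^ x.g • (x.c.ev Y (x.c.ldc D) - x.c.ev X (x.c.ldc D')) =
      ∑ t ∈ range x.N, ((d2 t + q t : ℕ) - (o2 t + 2 ^ x.o : ℕ) : ℝ) • μ 0 0 t +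
      ((2 : ℝ) ^ x.g • x.c.ev Y (x.c.ldc D) - ∑ t ∈ range x.N, (d2 t - o2 t : ℝ) • μ 0 0 t) -
      ((2 : ℝ) ^ x.g • x.c.ev X (x.c.ldc D') - -∑ t ∈ range x.N, (q t - 2 ^ x.o : ℝ) • μ 0 0 t) := by
    rw [sum_congr rfl fun t _ => show ((d2 t + q t : ℕ) - (o2 t + 2 ^ x.o : ℕ) : ℝ) • μ 0 0 t =
      (d2 t - o2 t : ℝ) • μ 0 0 t + (q t - 2 ^ x.o : ℝ) • μ 0 0 t by
        rw [← add_smul]; push_cast; ring_nf, sum_add_distrib, smul_sub]
    abel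
  have h8 := map_smul_eq_mul ν ((2 : ℝ) ^ x.g) (x.c.ev Y (x.c.ldc D) - x.c.ev X (x.c.ldc D'))
  rw [Real.norm_of_nonneg (by positivity)] at h8
  rw [← h8, h7, Par.bd, Nat.add_eq, Nat.add_eq, Nat.cast_add, Nat.cast_add]
  exact (map_sub_le_add ν _ _).trans (add_le_add ((map_add_le_add ν _ _).trans
    (add_le_add (h5.trans h4) h3)) hq)

end Par

end Pool.Agent.MP_48470b_gt.Pj
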